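import Mathlib

/-!
MP_17d087_al, interface.  The ring `K` of formal series in the twelve letters
`q y t g z h X Y a1 a2 c1 c2` with the relations `a1 X = c1 z`, `a2 X = c2 z`, `a1 Y = c1 h`, described through
its constant term `ep` and its left coefficient operators `D m`.
-/

universe v

namespace K1H43.NI

/-- The letters. -/
inductive Ltr : Type
  | q | y | t | g | z | h | X | Y | a1 | a2 | c1 | c2
deriving DecidableEq, Fintype

open Ltr

/-- `VV ep D n f`: all coefficients of `f` at words of length `< n` vanish. -/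
def VV {k K : Type} [Zero k] (ep : K → k) (D : Ltr → K → K) : ℕ → K → Prop
  | 0, _ => True
  | n + 1, f => ep f = 0 ∧ ∀ m, VV ep D n (D m f)

/-- What we use of the ring of formal series. -/
structure Api (k K : Type) [Field k] [Ring K] where
  /-- scalars -/
  C : k →+* K
  C_comm : ∀ c f, C c * f = f * C c
  /-- constant term -/
  ep : K →+* k
  ep_C : ∀ c, ep (C c) = c
  /-- the letters as elements of the ring -/
  L : Ltr → K
  /-- `D m f` is the series of the coefficients of `f` at the (normal) words beginning with `m` -/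
  D : Ltr → K →+ K
  ep_L : ∀ m, ep (L m) = 0
  decomp : ∀ f, f = C (ep f) + ∑ m, L m * D m f
  D_C : ∀ m c, D m (C c) = 0
  D_C_mul : ∀ m c f, D m (C c * f) = C c * D m f
  D_L_mul : ∀ m n f, n ≠ a1 → n ≠ a2 → D m (L n * f) = if m = n then f else 0
  D_a1_mul : ∀ m f, D m (L a1 * f) =
    if m = a1 then f - (L X * D X f + L Y * D Y f) else if m = c1 then L z * D X f + L h * D Y f else 0
  D_a2_mul : ∀ m f, D m (L a2 * f) =
    if m = a2 then f - L X * D X f else if m = c2 then L z * D X f else 0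
  DX_a1 : ∀ f, D X (D a1 f) = 0
  DY_a1 : ∀ f, D Y (D a1 f) = 0
  DX_a2 : ∀ f, D X (D a2 f) = 0
  unit : ∀ f, ep f ≠ 0 → IsUnit f
  sep : ∀ f, (∀ n, VV ep (fun m => D m) n f) → f = 0

namespace Api

variable {k K : Type} [Field k] [Ring K] (A : Api k K)

/-- `A.V n f`: all coefficients of `f` at words of length `< n` vanish. -/
def V (n : ℕ) (f : K) : Prop := VV A.ep (fun m => A.D m) n f

theorem V_zero (f : K) : A.V 0 f := trivial

theorem V_succ {n : ℕ} {f : K} : A.V (n + 1) f ↔ A.ep f = 0 ∧ ∀ m, A.V n (A.D m f) := Iff.rfl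

theorem eq_zero_of_V {f : K} (h : ∀ n, A.V n f) : f = 0 := A.sep f h

/-- the free letters: those that do not begin any relation -/
def Free (m : Ltr) : Prop := m ≠ a1 ∧ m ≠ a2 ∧ m ≠ c1 ∧ m ≠ c2

instance (m : Ltr) : Decidable (Free m) := by unfold Free; infer_instance

theorem D_one (m : Ltr) : A.D m 1 = 0 := by
  have h := A.D_C m 1
  rwa [map_one] at h

/-- The left coefficient operator of a free letter on a product of a letter. -/
theorem D_free_L {n : Ltr} (hn : Free n) (m : Ltr) (f : K) : A.D n (A.L m * f) = if n = m then f else 0 := by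
  obtain ⟨h1, h2, h3, h4⟩ := hn
  by_cases ha : m = a1
  · subst ha; rw [A.D_a1_mul, if_neg h1, if_neg h3, if_neg h1]
  by_cases hb : m = a2
  · subst hb; rw [A.D_a2_mul, if_neg h2, if_neg h4, if_neg h2]
  exact A.D_L_mul _ _ _ ha hb

/-- Leibniz rule for the free letters. -/
theorem D_mul {n : Ltr} (hn : Free n) (f g : K) :
    A.D n (f * g) = A.C (A.ep f) * A.D n g + A.D n f * g := by
  have h : f * g = A.C (A.ep f) * g + ∑ m, A.L m * (A.D m f * g) := by
    conv_lhs => rw [A.decomp f]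
    rw [add_mul, Finset.sum_mul]
    simp only [mul_assoc]
  rw [h, map_add, map_sum, A.D_C_mul]
  congr 1
  simp only [A.D_free_L hn]
  rw [Finset.sum_ite_eq]
  simp

/-- the part `X D_X f + Y D_Y f` -/
def Xi (f : K) : K := A.L X * A.D X f + A.L Y * A.D Y f

/-- the part `z D_X f + h D_Y f` -/
def Ze (f : K) : K := A.L z * A.D X f + A.L h * A.D Y f

theorem free_X : Free X := by decide
theorem free_Y : Free Y := by decide
theorem free_q : Free q := by decide
theorem free_y : Free y := by decide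
theorem free_t : Free t := by decide
theorem free_g : Free g := by decide
theorem free_z : Free z := by decide
theorem free_h : Free h := by decide

theorem D_a1_a1 (f g : K) : A.D a1 (A.L a1 * (A.D a1 f * g)) =
    A.D a1 f * g - A.C (A.ep (A.D a1 f)) * A.Xi g := by
  rw [A.D_a1_mul, if_pos rfl, A.D_mul free_X, A.D_mul free_Y, A.DX_a1, A.DY_a1, zero_mul, add_zero,
    add_zero, Xi, mul_add]
  simp only [← mul_assoc, A.C_comm]

theorem D_c1_a1 (f g : K) : A.D c1 (A.L a1 * (A.D a1 f * g)) = A.C (A.ep (A.D a1 f)) * A.Ze g := by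
  rw [A.D_a1_mul, if_neg (by decide), if_pos rfl, A.D_mul free_X, A.D_mul free_Y, A.DX_a1, A.DY_a1,
    zero_mul, add_zero, add_zero, Ze, mul_add]
  simp only [← mul_assoc, A.C_comm]

theorem D_a2_a2 (f g : K) : A.D a2 (A.L a2 * (A.D a2 f * g)) =
    A.D a2 f * g - A.C (A.ep (A.D a2 f)) * (A.L X * A.D X g) := by
  rw [A.D_a2_mul, if_pos rfl, A.D_mul free_X, A.DX_a2, zero_mul, add_zero]
  simp only [← mul_assoc, A.C_comm]

theorem D_c2_a2 (f g : K) : A.D c2 (A.L a2 * (A.D a2 f * g)) =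
    A.C (A.ep (A.D a2 f)) * (A.L z * A.D X g) := by
  rw [A.D_a2_mul, if_neg (by decide), if_pos rfl, A.D_mul free_X, A.DX_a2, zero_mul, add_zero]
  simp only [← mul_assoc, A.C_comm]

theorem D_mul_expand (n : Ltr) (f g : K) :
    A.D n (f * g) = A.C (A.ep f) * A.D n g + ∑ m, A.D n (A.L m * (A.D m f * g)) := by
  have h : f * g = A.C (A.ep f) * g + ∑ m, A.L m * (A.D m f * g) := by
    conv_lhs => rw [A.decomp f]
    rw [add_mul, Finset.sum_mul]
    simp only [mul_assoc]
  conv_lhs => rw [h]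
  rw [map_add, map_sum, A.D_C_mul]

/-- Product rule for `a1`. -/
theorem D_a1_prod (f g : K) : A.D a1 (f * g) =
    A.C (A.ep f) * A.D a1 g + A.D a1 f * g - A.C (A.ep (A.D a1 f)) * A.Xi g := by
  rw [A.D_mul_expand, add_sub_assoc]
  congr 1
  rw [Finset.sum_eq_single a1]
  · exact A.D_a1_a1 f g
  · intro m _ hm
    by_cases hb : m = a2
    · subst hb; rw [A.D_a2_mul]; rfl
    rw [A.D_L_mul _ _ _ hm hb, if_neg (Ne.symm hm)]
  · simp

/-- Product rule for `c1`. -/
theorem D_c1_prod (f g : K) : A.D c1 (f * g) =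
    A.C (A.ep f) * A.D c1 g + A.D c1 f * g + A.C (A.ep (A.D a1 f)) * A.Ze g := by
  rw [A.D_mul_expand, add_assoc]
  congr 1
  rw [← Finset.sum_subset (Finset.subset_univ {c1, a1})]
  · rw [Finset.sum_pair (by decide), A.D_c1_a1, A.D_L_mul _ _ _ (by decide) (by decide), if_pos rfl]
  · intro m _ hm
    simp only [Finset.mem_insert, Finset.mem_singleton, not_or] at hm
    by_cases hb : m = a2
    · subst hb; rw [A.D_a2_mul]; rfl
    rw [A.D_L_mul _ _ _ hm.2 hb, if_neg (Ne.symm hm.1)]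

/-- Product rule for `a2`. -/
theorem D_a2_prod (f g : K) : A.D a2 (f * g) =
    A.C (A.ep f) * A.D a2 g + A.D a2 f * g - A.C (A.ep (A.D a2 f)) * (A.L X * A.D X g) := by
  rw [A.D_mul_expand, add_sub_assoc]
  congr 1
  rw [Finset.sum_eq_single a2]
  · exact A.D_a2_a2 f g
  · intro m _ hm
    by_cases hb : m = a1
    · subst hb; rw [A.D_a1_mul]; rfl
    rw [A.D_L_mul _ _ _ hb hm, if_neg (Ne.symm hm)]
  · simp

/-- Product rule for `c2`. -/
theorem D_c2_prod (f g : K) : A.D c2 (f * g) =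
    A.C (A.ep f) * A.D c2 g + A.D c2 f * g + A.C (A.ep (A.D a2 f)) * (A.L z * A.D X g) := by
  rw [A.D_mul_expand, add_assoc]
  congr 1
  rw [← Finset.sum_subset (Finset.subset_univ {c2, a2})]
  · rw [Finset.sum_pair (by decide), A.D_c2_a2, A.D_L_mul _ _ _ (by decide) (by decide), if_pos rfl]
  · intro m _ hm
    simp only [Finset.mem_insert, Finset.mem_singleton, not_or] at hm
    by_cases hb : m = a1
    · subst hb; rw [A.D_a1_mul]; rfl
    rw [A.D_L_mul _ _ _ hb hm.2, if_neg (Ne.symm hm.1)]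

theorem D_L {n : Ltr} (hn : Free n) (m : Ltr) : A.D n (A.L m) = if n = m then 1 else 0 := by
  have h := A.D_free_L hn m 1
  rwa [mul_one] at h

/-- The set of the elements `e1 (X r + Y r') + e2 (z r + h r')` with `e1` a unit and `(r, r') ≠ 0`. -/
def XX (f : K) : Prop := ∃ e1 e2 r r' : K, A.ep e1 ≠ 0 ∧ (r ≠ 0 ∨ r' ≠ 0) ∧
  f = e1 * (A.L X * r + A.L Y * r') + e2 * (A.L z * r + A.L h * r')

/-- The operator cutting out the subring. -/
def De (f : K) : K := A.D q f + A.L y * A.D X f + A.L g * A.D Y f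

/-- The subring `T`. -/
def TT (f : K) : Prop := ∃ s : K, A.De f = A.L t * s

end Api

/-! ### Statements of the pieces -/

/-- The ring of formal series exists. -/
def S_BASE : Prop := ∀ (k : Type) [Field k], ∃ (K : Type) (_ : Ring K), Nonempty (Api k K)

/-- The order filtration is multiplicative and the order is additive. -/
def S_ORD : Prop := ∀ (k K : Type) [Field k] [Ring K] (A : Api k K),
  (∀ (n : ℕ) (f g : K), A.V n f → A.V n g → A.V n (f + g)) ∧
  (∀ (n m : ℕ) (f g : K), A.V n f → A.V m g → A.V (n + m) (f * g)) ∧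
  (∀ (n m : ℕ) (f g : K), A.V n f → ¬ A.V (n + 1) f → A.V m g → ¬ A.V (m + 1) g →
    ¬ A.V (n + m + 1) (f * g)) ∧
  (∀ (n : ℕ) (f : K) (m : Ltr), Api.Free m → A.V n f → A.V (n + 1) (A.L m * f))

/-- Consequence used by everybody: `K` has no zero divisors and there is an additive order. -/
def S_DOM : Prop := ∀ (k K : Type) [Field k] [Ring K] (A : Api k K),
  (∀ f g : K, f * g = 0 → f = 0 ∨ g = 0) ∧
  ∃ ord : K → ℕ, (∀ f, f ≠ 0 → ∀ n, A.V n f ↔ n ≤ ord f) ∧
    (∀ f g, f ≠ 0 → g ≠ 0 → ord (f * g) = ord f + ord g) ∧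
    (∀ f, f ≠ 0 → (ord f = 0 ↔ A.ep f ≠ 0))

/-- Divisor properties of the set `XX`. -/
def S_FTWO : Prop := ∀ (k K : Type) [Field k] [Ring K] (A : Api k K),
  (∀ f, A.XX f → A.ep f = 0 ∧ f ≠ 0) ∧
  (∀ u w : K, A.ep u ≠ 0 → (A.XX (u * w) ↔ A.XX w)) ∧
  (∀ u w : K, A.XX u → w ≠ 0 → A.XX (u * w)) ∧
  (∀ u w : K, A.ep u = 0 → w ≠ 0 → A.XX (u * w) → A.XX u)

/-- Lemma L. -/
def S_LL : Prop := ∀ (k K : Type) [Field k] [Ring K] (A : Api k K) (al al' ga ga' v v' r r' : K),
  al * v - al' * v' = A.L Ltr.X * r + A.L Ltr.Y * r' →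
  ga * v - ga' * v' = -(A.L Ltr.z * r + A.L Ltr.h * r') →
  (r ≠ 0 ∨ r' ≠ 0) → A.ep al ≠ 0 → A.XX v ∨ A.XX v' ∨ ∃ e, v = e * v'

/-- Rigidity. -/
def S_FTHREE : Prop := ∀ (k K : Type) [Field k] [Ring K] (A : Api k K) (u u' v v' : K),
  u ≠ 0 → u' ≠ 0 → v ≠ 0 → v' ≠ 0 → ¬ A.XX v → ¬ A.XX v' → u * v = u' * v' →
  ∃ e, u = u' * e ∨ u' = u * e

/-- The subring `T` avoids `XX`. -/
def S_FONE : Prop := ∀ (k K : Type) [Field k] [Ring K] (A : Api k K) (f : K), A.TT f → ¬ A.XX f

/-- `T` is a subring containing the scalars and it is not invertible. -/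
def S_SUB : Prop := ∀ (k K : Type) [Field k] [Ring K] (A : Api k K),
  ∃ R : Subring K, (∀ f, f ∈ R ↔ A.TT f) ∧ (∀ c, A.C c ∈ R) ∧
    ∀ (S : Type v) [Ring S] (φ : R →ₙ+* S), Function.Injective φ → ∃ r : R, r ≠ 0 ∧ ¬ IsUnit (φ r)

end K1H43.NI
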