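import Mathlib

/-!
The ring of formal series over a monoid with finite factorisations.
-/

namespace K1H43.NI

open Finset hiding mem_antidiagonal antidiagonal
open HasAntidiagonal

/-- Formal series with coefficients in `k` over the monoid `G`. -/
def FS (G k : Type) : Type := G → k

namespace FS

variable {G k : Type} [AddMonoid G] [HasAntidiagonal G] [CommRing k]

/-- The coefficient. -/
def cf (a : FS G k) : G → k := a

omit [AddMonoid G] [HasAntidiagonal G] [CommRing k] in
@[ext] theorem ext {a b : FS G k} (h : ∀ g, a.cf g = b.cf g) : a = b := funext h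

instance : AddCommGroup (FS G k) := inferInstanceAs (AddCommGroup (G → k))

omit [AddMonoid G] [HasAntidiagonal G] in
@[simp] theorem cf_zero (g : G) : (0 : FS G k).cf g = 0 := rfl
omit [AddMonoid G] [HasAntidiagonal G] in
@[simp] theorem cf_add (a b : FS G k) (g : G) : (a + b).cf g = a.cf g + b.cf g := rfl
omit [AddMonoid G] [HasAntidiagonal G] in
@[simp] theorem cf_neg (a : FS G k) (g : G) : (-a).cf g = - a.cf g := rfl
omit [AddMonoid G] [HasAntidiagonal G] in
@[simp] theorem cf_sub (a b : FS G k) (g : G) : (a - b).cf g = a.cf g - b.cf g := rfl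

/-- convolution -/
def conv (a b : G → k) (g : G) : k := ∑ p ∈ antidiagonal g, a p.1 * b p.2

instance : Mul (FS G k) := ⟨fun a b => conv a.cf b.cf⟩

theorem cf_mul (a b : FS G k) (g : G) : (a * b).cf g = ∑ p ∈ antidiagonal g, a.cf p.1 * b.cf p.2 := rfl

open Classical in
/-- monomial -/
noncomputable def mono (g : G) (c : k) : FS G k := fun h => if h = g then c else 0

omit [AddMonoid G] [HasAntidiagonal G] in
theorem cf_mono_self (g : G) (c : k) : (mono g c : FS G k).cf g = c := by simp [cf, mono]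

omit [AddMonoid G] [HasAntidiagonal G] in
theorem cf_mono_ne {g h : G} (c : k) (hh : h ≠ g) : (mono g c : FS G k).cf h = 0 := by simp [cf, mono, hh]

noncomputable instance : One (FS G k) := ⟨mono 0 1⟩

omit [HasAntidiagonal G] in
theorem one_def : (1 : FS G k) = mono 0 1 := rfl

theorem conv_assoc (a b c : G → k) : conv (conv a b) c = conv a (conv b c) := by
  funext g
  unfold conv
  have e1 : ∀ p ∈ antidiagonal g, (∑ s ∈ antidiagonal p.1, a s.1 * b s.2) * c p.2
      = ∑ s ∈ antidiagonal p.1, a s.1 * b s.2 * c p.2 := by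
    intro p _
    rw [Finset.sum_mul]
  have e2 : ∀ p ∈ antidiagonal g, a p.1 * (∑ s ∈ antidiagonal p.2, b s.1 * c s.2)
      = ∑ s ∈ antidiagonal p.2, a p.1 * b s.1 * c s.2 := by
    intro p _
    rw [Finset.mul_sum]
    exact Finset.sum_congr rfl fun s _ => by ring
  rw [Finset.sum_congr rfl e1, Finset.sum_congr rfl e2]
  rw [Finset.sum_sigma' (antidiagonal g) (fun p => antidiagonal p.1),
    Finset.sum_sigma' (antidiagonal g) (fun p => antidiagonal p.2)]
  refine Finset.sum_bij' (fun x _ => ⟨(x.2.1, x.2.2 + x.1.2), (x.2.2, x.1.2)⟩)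
    (fun x _ => ⟨(x.1.1 + x.2.1, x.2.2), (x.1.1, x.2.1)⟩) ?_ ?_ ?_ ?_ ?_
  · rintro ⟨⟨p1, p2⟩, ⟨s1, s2⟩⟩ h
    simp only [Finset.mem_sigma, mem_antidiagonal] at h ⊢
    refine ⟨?_, trivial⟩
    rw [← add_assoc, h.2, h.1]
  · rintro ⟨⟨p1, p2⟩, ⟨s1, s2⟩⟩ h
    simp only [Finset.mem_sigma, mem_antidiagonal] at h ⊢
    refine ⟨?_, trivial⟩
    rw [add_assoc, h.2, h.1]
  · rintro ⟨⟨p1, p2⟩, ⟨s1, s2⟩⟩ h
    simp only [Finset.mem_sigma, mem_antidiagonal] at h ⊢
    obtain ⟨h1, h2⟩ := h
    subst h2
    rfl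
  · rintro ⟨⟨p1, p2⟩, ⟨s1, s2⟩⟩ h
    simp only [Finset.mem_sigma, mem_antidiagonal] at h ⊢
    obtain ⟨h1, h2⟩ := h
    subst h2
    rfl
  · rintro ⟨⟨p1, p2⟩, ⟨s1, s2⟩⟩ h
    simp only [Finset.mem_sigma, mem_antidiagonal] at h ⊢

theorem one_conv (a : FS G k) : (1 : FS G k) * a = a := by
  ext g
  rw [cf_mul, Finset.sum_eq_single (0, g)]
  · rw [one_def, cf_mono_self]; ring
  · rintro ⟨p1, p2⟩ hp hne
    rw [mem_antidiagonal] at hp
    have : p1 ≠ 0 := by
      rintro rfl
      apply hne
      simp only [zero_add] at hp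
      rw [hp]
    simp only
    rw [one_def, cf_mono_ne _ this]; ring
  · intro h
    exact absurd (mem_antidiagonal.2 (zero_add g)) h

theorem conv_one (a : FS G k) : a * (1 : FS G k) = a := by
  ext g
  rw [cf_mul, Finset.sum_eq_single (g, 0)]
  · rw [one_def, cf_mono_self]; ring
  · rintro ⟨p1, p2⟩ hp hne
    rw [mem_antidiagonal] at hp
    have : p2 ≠ 0 := by
      rintro rfl
      apply hne
      simp only [add_zero] at hp
      rw [hp]
    simp only
    rw [one_def, cf_mono_ne _ this]; ring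
  · intro h
    exact absurd (mem_antidiagonal.2 (add_zero g)) h

noncomputable instance : Ring (FS G k) :=
  { (inferInstance : AddCommGroup (FS G k)) with
    mul := (· * ·)
    one := 1
    left_distrib := fun a b c => by
      ext g
      simp only [cf_mul, cf_add, mul_add, Finset.sum_add_distrib]
    right_distrib := fun a b c => by
      ext g
      simp only [cf_mul, cf_add, add_mul, Finset.sum_add_distrib]
    zero_mul := fun a => by ext g; rw [cf_mul]; simp
    mul_zero := fun a => by ext g; rw [cf_mul]; simp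
    mul_assoc := fun a b c => conv_assoc _ _ _
    one_mul := one_conv
    mul_one := conv_one }

theorem mono_zero_mul (c : k) (a : FS G k) (g : G) : (mono 0 c * a).cf g = c * a.cf g := by
  rw [cf_mul, Finset.sum_eq_single (0, g)]
  · rw [cf_mono_self]
  · rintro ⟨p1, p2⟩ hp hne
    rw [mem_antidiagonal] at hp
    have : p1 ≠ 0 := by
      rintro rfl
      apply hne
      simp only [zero_add] at hp
      rw [hp]
    simp only
    rw [cf_mono_ne _ this]; ring
  · intro h
    exact absurd (mem_antidiagonal.2 (zero_add g)) h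

theorem mul_mono_zero (c : k) (a : FS G k) (g : G) : (a * mono 0 c).cf g = c * a.cf g := by
  rw [cf_mul, Finset.sum_eq_single (g, 0)]
  · rw [cf_mono_self]; ring
  · rintro ⟨p1, p2⟩ hp hne
    rw [mem_antidiagonal] at hp
    have : p2 ≠ 0 := by
      rintro rfl
      apply hne
      simp only [add_zero] at hp
      rw [hp]
    simp only
    rw [cf_mono_ne _ this]; ring
  · intro h
    exact absurd (mem_antidiagonal.2 (add_zero g)) h

/-- The scalars. -/
noncomputable def C : k →+* FS G k where
  toFun := mono 0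
  map_one' := rfl
  map_mul' a b := by
    ext g
    rw [mono_zero_mul]
    by_cases h : g = 0
    · subst h; rw [cf_mono_self, cf_mono_self]
    · rw [cf_mono_ne _ h, cf_mono_ne _ h, mul_zero]
  map_zero' := by
    ext g
    by_cases h : g = 0
    · subst h; rw [cf_mono_self]; rfl
    · rw [cf_mono_ne _ h]; rfl
  map_add' a b := by
    ext g
    rw [cf_add]
    by_cases h : g = 0
    · subst h; rw [cf_mono_self, cf_mono_self, cf_mono_self]
    · rw [cf_mono_ne _ h, cf_mono_ne _ h, cf_mono_ne _ h, add_zero]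

theorem cf_C_mul (c : k) (a : FS G k) (g : G) : (C c * a).cf g = c * a.cf g := mono_zero_mul c a g

theorem cf_mul_C (c : k) (a : FS G k) (g : G) : (a * C c).cf g = c * a.cf g := mul_mono_zero c a g

theorem cf_C (c : k) (g : G) (hg : g ≠ 0) : (C c : FS G k).cf g = 0 := cf_mono_ne c hg

theorem cf_C_zero (c : k) : (C c : FS G k).cf 0 = c := cf_mono_self 0 c

/-- Multiplication by a monomial with coefficient one, for a left cancellative element. -/
theorem cf_mono_mul (u v : G) (hu : ∀ x y : G, u + x = u + y → x = y) (a : FS G k) :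
    (mono u 1 * a).cf (u + v) = a.cf v := by
  rw [cf_mul, Finset.sum_eq_single (u, v)]
  · rw [cf_mono_self, one_mul]
  · rintro ⟨p1, p2⟩ hp hne
    rw [mem_antidiagonal] at hp
    simp only at hp ⊢
    by_cases h1 : p1 = u
    · subst h1
      exact absurd (by rw [hu _ _ hp]) hne
    · rw [cf_mono_ne _ h1, zero_mul]
  · intro h
    exact absurd (mem_antidiagonal.2 rfl) h

theorem cf_mono_mul_ne (u w : G) (hu : ∀ x : G, u + x ≠ w) (a : FS G k) :
    (mono u 1 * a).cf w = 0 := by
  rw [cf_mul]
  refine Finset.sum_eq_zero ?_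
  rintro ⟨p1, p2⟩ hp
  rw [mem_antidiagonal] at hp
  simp only at hp ⊢
  by_cases h1 : p1 = u
  · subst h1
    exact absurd hp (hu _)
  · rw [cf_mono_ne _ h1, zero_mul]

end FS

/-! ### Inverses -/

namespace FS

variable {G k : Type} [AddMonoid G] [HasAntidiagonal G] [Field k]

/-- A length function making the monoid graded. -/
structure Len (G : Type) [AddMonoid G] where
  l : G → ℕ
  add : ∀ a b, l (a + b) = l a + l b
  zero : ∀ a, l a = 0 → a = 0

theorem Len.l_zero {G : Type} [AddMonoid G] (E : Len G) : E.l 0 = 0 := by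
  have h := E.add 0 0
  rw [add_zero] at h
  omega

/-- The constant term is a ring homomorphism. -/
noncomputable def ep (E : Len G) : FS G k →+* k where
  toFun a := a.cf 0
  map_one' := cf_mono_self 0 1
  map_zero' := rfl
  map_add' _ _ := rfl
  map_mul' a b := by
    rw [cf_mul, Finset.sum_eq_single (0, 0)]
    · rintro ⟨p1, p2⟩ hp hne
      rw [mem_antidiagonal] at hp
      simp only at hp
      have h1 := E.add p1 p2
      rw [hp, E.l_zero] at h1
      exact absurd (by rw [E.zero p1 (by omega), E.zero p2 (by omega)]) hne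
    · intro h
      exact absurd (mem_antidiagonal.2 (add_zero 0)) h

theorem ep_apply (E : Len G) (a : FS G k) : ep E a = a.cf 0 := rfl

/-- Powers of a series without constant term. -/
theorem cf_pow (E : Len G) (a : FS G k) (ha : a.cf 0 = 0) (n : ℕ) :
    ∀ g, E.l g < n → (a ^ n).cf g = 0 := by
  induction n with
  | zero => intro g hg; omega
  | succ n ih =>
    intro g hg
    rw [pow_succ', cf_mul]
    refine Finset.sum_eq_zero ?_
    rintro ⟨p1, p2⟩ hp
    rw [mem_antidiagonal] at hp
    simp only at hp ⊢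
    by_cases h1 : p1 = 0
    · subst h1; rw [ha, zero_mul]
    · have h2 := E.add p1 p2
      rw [hp] at h2
      have h3 : E.l p1 ≠ 0 := fun h => h1 (E.zero _ h)
      rw [ih p2 (by omega), mul_zero]

/-- The coefficients of a product only depend on the coefficients up to the same length. -/
theorem cf_mul_congr (E : Len G) (a a' b b' : FS G k) (g : G)
    (h1 : ∀ x, E.l x ≤ E.l g → a.cf x = a'.cf x) (h2 : ∀ x, E.l x ≤ E.l g → b.cf x = b'.cf x) :
    (a * b).cf g = (a' * b').cf g := by
  rw [cf_mul, cf_mul]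
  refine Finset.sum_congr rfl ?_
  rintro ⟨p1, p2⟩ hp
  rw [mem_antidiagonal] at hp
  simp only at hp ⊢
  have h3 := E.add p1 p2
  rw [hp] at h3
  rw [h1 p1 (by omega), h2 p2 (by omega)]

/-- The geometric series. -/
noncomputable def geom (E : Len G) (a : FS G k) : FS G k := fun g => (∑ i ∈ Finset.range (E.l g + 1), a ^ i).cf g

theorem geom_cf (E : Len G) (a : FS G k) (ha : a.cf 0 = 0) (g : G) (n : ℕ) (hn : E.l g < n) :
    (geom E a).cf g = (∑ i ∈ Finset.range n, a ^ i).cf g := by
  have h1 : ∀ m, (∑ i ∈ Finset.range (E.l g + 1 + m), a ^ i).cf g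
      = (∑ i ∈ Finset.range (E.l g + 1), a ^ i).cf g := by
    intro m
    induction m with
    | zero => rfl
    | succ m ih =>
      rw [← add_assoc, Finset.sum_range_succ, cf_add, ih, cf_pow E a ha _ g (by omega), add_zero]
  obtain ⟨m, rfl⟩ : ∃ m, n = E.l g + 1 + m := ⟨n - (E.l g + 1), by omega⟩
  rw [h1]
  rfl

theorem sub_mul_geom (E : Len G) (a : FS G k) (ha : a.cf 0 = 0) : (1 - a) * geom E a = 1 := by
  ext g
  rw [cf_mul_congr E (1 - a) (1 - a) (geom E a) (∑ i ∈ Finset.range (E.l g + 1), a ^ i) g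
    (fun _ _ => rfl) (fun x hx => geom_cf E a ha x _ (by omega)), mul_neg_geom_sum, cf_sub,
    cf_pow E a ha _ g (by omega), sub_zero]

theorem geom_mul_sub (E : Len G) (a : FS G k) (ha : a.cf 0 = 0) : geom E a * (1 - a) = 1 := by
  ext g
  rw [cf_mul_congr E (geom E a) (∑ i ∈ Finset.range (E.l g + 1), a ^ i) (1 - a) (1 - a) g
    (fun x hx => geom_cf E a ha x _ (by omega)) (fun _ _ => rfl), geom_sum_mul_neg, cf_sub,
    cf_pow E a ha _ g (by omega), sub_zero]

theorem isUnit_of_ep (E : Len G) (a : FS G k) (ha : ep E a ≠ 0) : IsUnit a := by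
  have h1 : IsUnit (C (ep E a) : FS G k) := (IsUnit.mk0 _ ha).map (C (G := G) (k := k))
  have h2 : a = C (ep E a) * (1 - (1 - C (ep E a)⁻¹ * a)) := by
    rw [sub_sub_cancel, ← mul_assoc, ← map_mul, mul_inv_cancel₀ ha, map_one, one_mul]
  have h3 : (1 - C (ep E a)⁻¹ * a : FS G k).cf 0 = 0 := by
    rw [cf_sub, cf_C_mul, ← ep_apply E a, inv_mul_cancel₀ ha, ← ep_apply E (1 : FS G k), map_one, sub_self]
  have h4 : IsUnit (1 - (1 - C (ep E a)⁻¹ * a) : FS G k) :=
    ⟨⟨_, _, sub_mul_geom E _ h3, geom_mul_sub E _ h3⟩, rfl⟩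
  rw [h2]
  exact h1.mul h4

end FS

end K1H43.NI
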