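import Mathlib
import Pool.Agent.K1H43.NI.Api
import Pool.Agent.K1H43.NI.Ser

/-!
The monoid with the relations `a1 X = c1 z`, `a2 X = c2 z`, `a1 Y = c1 h`.
-/

namespace K1H43.NI

open Ltr

/-- Left multiplication by a letter on words. -/
def act : Ltr → List Ltr → List Ltr
  | a1, X :: w => c1 :: z :: w
  | a1, Y :: w => c1 :: h :: w
  | a2, X :: w => c2 :: z :: w
  | m, w => m :: w

/-- Multiplication of words. -/
def star (u v : List Ltr) : List Ltr := u.foldr act v

theorem star_nil (v : List Ltr) : star [] v = v := rfl

theorem star_cons (m : Ltr) (u v : List Ltr) : star (m :: u) v = act m (star u v) := rfl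

theorem act_other {m : Ltr} (h1 : m ≠ a1) (h2 : m ≠ a2) (w : List Ltr) : act m w = m :: w := by
  cases m <;> first | exact absurd rfl h1 | exact absurd rfl h2 | rfl

theorem act_nil (m : Ltr) : act m [] = [m] := by cases m <;> rfl

theorem act_a1_X (w : List Ltr) : act a1 (X :: w) = c1 :: z :: w := rfl
theorem act_a1_Y (w : List Ltr) : act a1 (Y :: w) = c1 :: h :: w := rfl
theorem act_a2_X (w : List Ltr) : act a2 (X :: w) = c2 :: z :: w := rfl

theorem act_a1_cons {m : Ltr} (h1 : m ≠ X) (h2 : m ≠ Y) (w : List Ltr) : act a1 (m :: w) = a1 :: m :: w := by
  cases m <;> first | exact absurd rfl h1 | exact absurd rfl h2 | rfl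

theorem act_a2_cons {m : Ltr} (h1 : m ≠ X) (w : List Ltr) : act a2 (m :: w) = a2 :: m :: w := by
  cases m <;> first | exact absurd rfl h1 | rfl

theorem star_act (m : Ltr) (x w : List Ltr) : star (act m x) w = act m (star x w) := by
  by_cases h1 : m = a1
  · subst h1
    cases x with
    | nil => rfl
    | cons n x =>
      by_cases hX : n = X
      · subst hX; rfl
      by_cases hY : n = Y
      · subst hY; rfl
      rw [act_a1_cons hX hY, star_cons]
  by_cases h2 : m = a2
  · subst h2
    cases x with
    | nil => rfl
    | cons n x =>
      by_cases hX : n = X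
      · subst hX; rfl
      rw [act_a2_cons hX, star_cons]
  rw [act_other h1 h2, star_cons]

theorem star_assoc (u v w : List Ltr) : star (star u v) w = star u (star v w) := by
  induction u with
  | nil => rfl
  | cons m u ih => rw [star_cons, star_cons, star_act, ih]

theorem act_length (m : Ltr) (w : List Ltr) : (act m w).length = w.length + 1 := by
  by_cases h1 : m = a1
  · subst h1
    cases w with
    | nil => rfl
    | cons n x =>
      by_cases hX : n = X
      · subst hX; rfl
      by_cases hY : n = Y
      · subst hY; rfl
      rw [act_a1_cons hX hY]; rfl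
  by_cases h2 : m = a2
  · subst h2
    cases w with
    | nil => rfl
    | cons n x =>
      by_cases hX : n = X
      · subst hX; rfl
      rw [act_a2_cons hX]; rfl
  rw [act_other h1 h2]; rfl

theorem star_length (u v : List Ltr) : (star u v).length = u.length + v.length := by
  induction u with
  | nil => simp [star_nil]
  | cons m u ih => rw [star_cons, act_length, ih, List.length_cons]; omega

theorem act_injective (m : Ltr) : Function.Injective (act m) := by
  by_cases h1 : m = a1
  · subst h1
    intro x y hxy
    cases x with
    | nil =>
      have h := congrArg List.length hxy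
      rw [act_length, act_length] at h
      cases y with
      | nil => rfl
      | cons n y => simp at h
    | cons n x =>
      cases y with
      | nil =>
        have h := congrArg List.length hxy
        rw [act_length, act_length] at h
        simp at h
      | cons n' y =>
        by_cases hX : n = X <;> by_cases hY : n = Y <;> by_cases hX' : n' = X <;> by_cases hY' : n' = Y <;>
          first
          | (subst hX; exact absurd hY (by decide))
          | (subst hX'; exact absurd hY' (by decide))
          | (subst hX; subst hX'; rw [act_a1_X, act_a1_X] at hxy; simpa using hxy)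
          | (subst hX; subst hY'; rw [act_a1_X, act_a1_Y] at hxy; simp at hxy)
          | (subst hY; subst hX'; rw [act_a1_X, act_a1_Y] at hxy; simp at hxy)
          | (subst hY; subst hY'; rw [act_a1_Y, act_a1_Y] at hxy; simpa using hxy)
          | (subst hX; rw [act_a1_X, act_a1_cons hX' hY'] at hxy; simp at hxy)
          | (subst hY; rw [act_a1_Y, act_a1_cons hX' hY'] at hxy; simp at hxy)
          | (subst hX'; rw [act_a1_X, act_a1_cons hX hY] at hxy; simp at hxy)
          | (subst hY'; rw [act_a1_Y, act_a1_cons hX hY] at hxy; simp at hxy)
          | (rw [act_a1_cons hX hY, act_a1_cons hX' hY'] at hxy; simpa using hxy)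
  by_cases h2 : m = a2
  · subst h2
    intro x y hxy
    cases x with
    | nil =>
      have h := congrArg List.length hxy
      rw [act_length, act_length] at h
      cases y with
      | nil => rfl
      | cons n y => simp at h
    | cons n x =>
      cases y with
      | nil =>
        have h := congrArg List.length hxy
        rw [act_length, act_length] at h
        simp at h
      | cons n' y =>
        by_cases hX : n = X <;> by_cases hX' : n' = X <;>
          first
          | (subst hX; subst hX'; rw [act_a2_X, act_a2_X] at hxy; simpa using hxy)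
          | (subst hX; rw [act_a2_X, act_a2_cons hX'] at hxy; simp at hxy)
          | (subst hX'; rw [act_a2_X, act_a2_cons hX] at hxy; simp at hxy)
          | (rw [act_a2_cons hX, act_a2_cons hX'] at hxy; simpa using hxy)
  intro x y hxy
  rw [act_other h1 h2, act_other h1 h2] at hxy
  simpa using hxy

/-- The monoid. -/
def Mo : Type := {u : List Ltr // star u [] = u}

namespace Mo

theorem ext' {a b : Mo} (h : a.1 = b.1) : a = b := Subtype.ext h

instance : Zero Mo := ⟨⟨[], rfl⟩⟩

instance : Add Mo := ⟨fun u v => ⟨star u.1 v.1, by rw [star_assoc, v.2]⟩⟩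

instance : AddMonoid Mo where
  zero_add _ := Subtype.ext rfl
  add_zero u := Subtype.ext u.2
  add_assoc _ _ _ := Subtype.ext (star_assoc _ _ _)
  nsmul := nsmulRec

theorem add_val (u v : Mo) : (u + v).1 = star u.1 v.1 := rfl

theorem zero_val : (0 : Mo).1 = [] := rfl

/-- The length. -/
def len : FS.Len Mo where
  l u := u.1.length
  add _ _ := star_length _ _
  zero _ h := ext' (List.length_eq_zero_iff.1 h)

theorem finite_le (n : ℕ) : Set.Finite {u : Mo | u.1.length = n} :=
  (List.finite_length_eq Ltr n).preimage (f := Subtype.val) Subtype.val_injective.injOn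

theorem finite_pairs (w : Mo) : Set.Finite {p : Mo × Mo | p.1 + p.2 = w} := by
  have h2 : Set.Finite (⋃ n ∈ Finset.range (w.1.length + 1), {u : Mo | u.1.length = n}) :=
    Set.Finite.biUnion (Finset.finite_toSet _) fun n _ => finite_le n
  refine (h2.prod h2).subset ?_
  rintro ⟨u, v⟩ huv
  have h3 : (u + v).1.length = u.1.length + v.1.length := star_length _ _
  have h4 : u + v = w := huv
  rw [h4] at h3
  constructor
  · simp only [Set.mem_iUnion]
    exact ⟨u.1.length, Finset.mem_range.2 (by omega), rfl⟩
  · simp only [Set.mem_iUnion]
    exact ⟨v.1.length, Finset.mem_range.2 (by omega), rfl⟩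

noncomputable instance : Finset.HasAntidiagonal Mo where
  antidiagonal w := (finite_pairs w).toFinset
  mem_antidiagonal := by
    intro w p
    simp

/-- A letter as an element of the monoid. -/
def lt (m : Ltr) : Mo := ⟨[m], by rw [star_cons, star_nil, act_nil]⟩

theorem lt_add (m : Ltr) (v : Mo) : (lt m + v).1 = act m v.1 := rfl

theorem lt_cancel (m : Ltr) (x y : Mo) (h : lt m + x = lt m + y) : x = y :=
  ext' (act_injective m (congrArg Subtype.val h))

end Mo

end K1H43.NI
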