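import Mathlib
import Pool.Agent.K1H43.NI.Api
import Pool.Agent.K1H43.NI.Ser
import Pool.Agent.K1H43.NI.Mon

/-!
The ring of formal series over the monoid `Mo` satisfies the interface.
-/

namespace K1H43.NI

open Ltr

theorem act_eq_cons {n : Ltr} {x v : List Ltr} (hx : act n x = n :: v) : x = v := by
  by_cases h1 : n = a1
  · subst h1
    cases x with
    | nil => rw [act_nil] at hx; simpa using hx
    | cons m x =>
      by_cases hX : m = X
      · subst hX; rw [act_a1_X] at hx; simp at hx
      by_cases hY : m = Y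
      · subst hY; rw [act_a1_Y] at hx; simp at hx
      rw [act_a1_cons hX hY] at hx; simpa using hx
  by_cases h2 : n = a2
  · subst h2
    cases x with
    | nil => rw [act_nil] at hx; simpa using hx
    | cons m x =>
      by_cases hX : m = X
      · subst hX; rw [act_a2_X] at hx; simp at hx
      rw [act_a2_cons hX] at hx; simpa using hx
  rw [act_other h1 h2] at hx; simpa using hx

namespace Mo

theorem lt_ne_zero (m : Ltr) (v : Mo) : lt m + v ≠ 0 := by
  intro h
  have h1 := congrArg (fun u : Mo => u.1.length) h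
  have h2 : (lt m + v).1.length = v.1.length + 1 := act_length m v.1
  have h3 : (lt m + v).1.length = 0 := h1
  omega

theorem lt_ne_zero' (m : Ltr) : lt m ≠ 0 := by
  have h := lt_ne_zero m 0
  rwa [add_zero] at h

/-- Every element is zero or begins with a letter. -/
theorem uncons (w : Mo) : w = 0 ∨ ∃ m v, w = lt m + v ∧ act m v.1 = m :: v.1 := by
  obtain ⟨w, hw⟩ := w
  cases w with
  | nil => exact Or.inl rfl
  | cons m v =>
    right
    have h1 : act m (star v []) = m :: v := hw
    have h2 := act_eq_cons h1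
    refine ⟨m, ⟨v, h2⟩, ?_, ?_⟩
    · refine ext' ?_
      rw [lt_add]
      show m :: v = act m v
      rw [h2] at h1
      exact h1.symm
    · rw [h2] at h1
      exact h1

theorem lt_add_of {m : Ltr} {v : Mo} (h : act m v.1 = m :: v.1) : (lt m + v).1 = m :: v.1 := h

end Mo

open Mo

section
variable {k : Type} [Field k]

/-- The left coefficient operators. -/
noncomputable def Dop (m : Ltr) : FS Mo k →+ FS Mo k where
  toFun f := fun w => if act m w.1 = m :: w.1 then f.cf (lt m + w) else 0
  map_zero' := by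
    ext w
    show (if act m w.1 = m :: w.1 then (0 : FS Mo k).cf (lt m + w) else 0) = 0
    split_ifs <;> rfl
  map_add' f g := by
    ext w
    show (if act m w.1 = m :: w.1 then (f + g).cf (lt m + w) else 0) =
      (if act m w.1 = m :: w.1 then f.cf (lt m + w) else 0) + (if act m w.1 = m :: w.1 then g.cf (lt m + w) else 0)
    split_ifs
    · rfl
    · rw [add_zero]

theorem cf_Dop (m : Ltr) (f : FS Mo k) (w : Mo) :
    (Dop m f).cf w = if act m w.1 = m :: w.1 then f.cf (lt m + w) else 0 := rfl

/-- The letters as series. -/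
noncomputable def Lop (m : Ltr) : FS Mo k := FS.mono (lt m) 1

theorem cf_Lop_mul (m : Ltr) (f : FS Mo k) (v : Mo) : (Lop m * f).cf (lt m + v) = f.cf v :=
  FS.cf_mono_mul _ _ (lt_cancel m) f

theorem cf_Lop_mul_ne (m : Ltr) (f : FS Mo k) (w : Mo) (h : ∀ x : Mo, act m x.1 ≠ w.1) :
    (Lop m * f).cf w = 0 :=
  FS.cf_mono_mul_ne (lt m) w (fun x hx => h x (congrArg Subtype.val hx)) f

/-- The product of a letter and its coefficient series. -/
theorem cf_L_D (m : Ltr) (f : FS Mo k) (w : Mo) :
    (Lop m * Dop m f).cf w = if w.1.head? = some m then f.cf w else 0 := by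
  by_cases hx : ∃ x : Mo, act m x.1 = w.1
  · obtain ⟨x, hx⟩ := hx
    have hw : w = lt m + x := ext' hx.symm
    rw [hw, cf_Lop_mul, cf_Dop]
    by_cases h1 : act m x.1 = m :: x.1
    · rw [if_pos h1, if_pos (by rw [lt_add, h1]; rfl)]
    · rw [if_neg h1, if_neg]
      intro h2
      rw [lt_add] at h2
      apply h1
      cases h3 : act m x.1 with
      | nil => rw [h3] at h2; simp at h2
      | cons n y =>
        rw [h3] at h2
        have h4 : n = m := by simpa using h2
        subst h4
        rw [act_eq_cons h3]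
  · rw [cf_Lop_mul_ne m _ w (fun x h => hx ⟨x, h⟩), if_neg]
    intro h2
    apply hx
    rcases uncons w with rfl | ⟨n, v, rfl, hv⟩
    · simp [zero_val] at h2
    · rw [lt_add_of hv] at h2
      have h4 : n = m := by simpa using h2
      subst h4
      exact ⟨v, rfl⟩

theorem head_lt {m : Ltr} {v : Mo} (h : act m v.1 = m :: v.1) : (lt m + v).1.head? = some m := by
  rw [lt_add_of h]; rfl

theorem base_decomp (f : FS Mo k) : f = FS.C (FS.ep len f) + ∑ m, Lop m * Dop m f := by
  ext w
  have hsum : (∑ m, Lop m * Dop m f).cf w = ∑ m, (Lop m * Dop m f).cf w :=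
    Finset.sum_apply w Finset.univ (fun m => (Lop m * Dop m f : FS Mo k))
  rw [FS.cf_add, hsum]
  simp only [cf_L_D]
  rcases uncons w with rfl | ⟨n, v, rfl, hv⟩
  · rw [FS.cf_C_zero, Finset.sum_eq_zero, add_zero]
    · rfl
    · intro m _
      rw [if_neg (by simp [zero_val])]
  · rw [FS.cf_C _ _ (lt_ne_zero n v), zero_add, head_lt hv, Finset.sum_eq_single n]
    · rw [if_pos rfl]
    · intro m _ hm
      rw [if_neg]
      intro h
      exact hm (by simpa using h.symm)
    · simp

theorem act_a1_shape {x : List Ltr} {m : Ltr} {w : List Ltr} (hx : act a1 x = m :: w) :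
    (m = a1 ∧ x = w) ∨ (m = c1 ∧ ((∃ v, x = X :: v ∧ w = z :: v) ∨ (∃ v, x = Y :: v ∧ w = h :: v))) := by
  cases x with
  | nil =>
    rw [act_nil] at hx
    left; simp at hx; exact ⟨hx.1.symm, hx.2.symm⟩
  | cons n x =>
    by_cases hX : n = X
    · subst hX; rw [act_a1_X] at hx; simp at hx
      exact Or.inr ⟨hx.1.symm, Or.inl ⟨x, rfl, hx.2.symm⟩⟩
    by_cases hY : n = Y
    · subst hY; rw [act_a1_Y] at hx; simp at hx
      exact Or.inr ⟨hx.1.symm, Or.inr ⟨x, rfl, hx.2.symm⟩⟩
    rw [act_a1_cons hX hY] at hx; simp at hx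
    exact Or.inl ⟨hx.1.symm, hx.2⟩

theorem act_a2_shape {x : List Ltr} {m : Ltr} {w : List Ltr} (hx : act a2 x = m :: w) :
    (m = a2 ∧ x = w) ∨ (m = c2 ∧ ∃ v, x = X :: v ∧ w = z :: v) := by
  cases x with
  | nil =>
    rw [act_nil] at hx
    left; simp at hx; exact ⟨hx.1.symm, hx.2.symm⟩
  | cons n x =>
    by_cases hX : n = X
    · subst hX; rw [act_a2_X] at hx; simp at hx
      exact Or.inr ⟨hx.1.symm, x, rfl, hx.2.symm⟩
    rw [act_a2_cons hX] at hx; simp at hx
    exact Or.inl ⟨hx.1.symm, hx.2⟩

theorem act_a1_self {w : Mo} : act a1 w.1 = a1 :: w.1 ↔ ¬ (w.1.head? = some X ∨ w.1.head? = some Y) := by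
  obtain ⟨w, hw⟩ := w
  cases w with
  | nil => simp [act_nil]
  | cons n x =>
    by_cases hX : n = X
    · subst hX; simp [act_a1_X]
    by_cases hY : n = Y
    · subst hY; simp [act_a1_Y]
    simp [act_a1_cons hX hY, hX, hY]

theorem act_a2_self {w : Mo} : act a2 w.1 = a2 :: w.1 ↔ ¬ (w.1.head? = some X) := by
  obtain ⟨w, hw⟩ := w
  cases w with
  | nil => simp [act_nil]
  | cons n x =>
    by_cases hX : n = X
    · subst hX; simp [act_a2_X]
    simp [act_a2_cons hX, hX]

theorem base_D_L_mul (m n : Ltr) (f : FS Mo k) (h1 : n ≠ a1) (h2 : n ≠ a2) :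
    Dop m (Lop n * f) = if m = n then f else 0 := by
  ext w
  rw [cf_Dop]
  by_cases hm : m = n
  · subst hm
    rw [if_pos (act_other h1 h2 _), cf_Lop_mul, if_pos rfl]
  · rw [if_neg hm, FS.cf_zero]
    split_ifs with h3
    · refine cf_Lop_mul_ne _ _ _ fun x hx => ?_
      rw [lt_add_of h3, act_other h1 h2] at hx
      simp at hx
      exact hm hx.1.symm
    · rfl

theorem cf_Lop_mul_head (n : Ltr) (f : FS Mo k) (w : Mo) (h1 : n ≠ a1) (h2 : n ≠ a2)
    (hw : w.1.head? ≠ some n) : (Lop n * f).cf w = 0 := by
  refine cf_Lop_mul_ne _ _ _ fun x hx => hw ?_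
  rw [← hx, act_other h1 h2]; rfl

theorem base_D_a1_mul (m : Ltr) (f : FS Mo k) : Dop m (Lop a1 * f) =
    if m = a1 then f - (Lop X * Dop X f + Lop Y * Dop Y f)
    else if m = c1 then Lop z * Dop X f + Lop h * Dop Y f else 0 := by
  ext w
  rw [cf_Dop]
  by_cases hm : m = a1
  · subst hm
    rw [if_pos rfl, FS.cf_sub, FS.cf_add, cf_L_D, cf_L_D]
    by_cases h1 : act a1 w.1 = a1 :: w.1
    · rw [if_pos h1, cf_Lop_mul]
      have h2 := act_a1_self.1 h1
      rw [not_or] at h2
      rw [if_neg h2.1, if_neg h2.2, add_zero, sub_zero]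
    · rw [if_neg h1]
      have h2 := mt act_a1_self.2 h1
      rw [not_not] at h2
      rcases h2 with h2 | h2
      · rw [if_pos h2, if_neg (by rw [h2]; decide), add_zero, sub_self]
      · rw [if_pos h2, if_neg (by rw [h2]; decide), zero_add, sub_self]
  rw [if_neg hm]
  by_cases hm2 : m = c1
  · subst hm2
    rw [if_pos rfl, FS.cf_add, if_pos (act_other (by decide) (by decide) _)]
    by_cases hx : ∃ x : Mo, act a1 x.1 = (lt c1 + w).1
    · obtain ⟨x, hx⟩ := hx
      rw [show lt c1 + w = lt a1 + x from ext' hx.symm, cf_Lop_mul]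
      rw [lt_add, act_other (m := c1) (by decide) (by decide)] at hx
      rcases act_a1_shape hx with ⟨h3, -⟩ | ⟨-, h3⟩
      · exact absurd h3 (by decide)
      rcases h3 with ⟨v, h4, h5⟩ | ⟨v, h4, h5⟩
      · -- w = z :: v, x = X :: v
        have hv : act z v = z :: v := act_other (by decide) (by decide) _
        have hv2 : act X v = X :: v := act_other (by decide) (by decide) _
        have hv0 : star v [] = v := by
          have := w.2
          rw [h5, star_cons, act_other (m := z) (by decide) (by decide)] at this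
          simpa using this
        have hw : w = lt z + ⟨v, hv0⟩ := ext' (by rw [lt_add]; exact h5.trans hv.symm)
        have hx' : x = lt X + ⟨v, hv0⟩ := ext' (by rw [lt_add]; exact h4.trans hv2.symm)
        rw [cf_Lop_mul_head h (Dop Y f) w (by decide) (by decide) (by rw [h5]; simp), add_zero, hw,
          cf_Lop_mul, cf_Dop, if_pos hv2, hx']
      · have hv : act h v = h :: v := act_other (by decide) (by decide) _
        have hv2 : act Y v = Y :: v := act_other (by decide) (by decide) _
        have hv0 : star v [] = v := by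
          have := w.2
          rw [h5, star_cons, act_other (m := h) (by decide) (by decide)] at this
          simpa using this
        have hw : w = lt h + ⟨v, hv0⟩ := ext' (by rw [lt_add]; exact h5.trans hv.symm)
        have hx' : x = lt Y + ⟨v, hv0⟩ := ext' (by rw [lt_add]; exact h4.trans hv2.symm)
        rw [cf_Lop_mul_head z (Dop X f) w (by decide) (by decide) (by rw [h5]; simp), zero_add, hw,
          cf_Lop_mul, cf_Dop, if_pos hv2, hx']
    · rw [cf_Lop_mul_ne a1 f _ (fun x hx' => hx ⟨x, hx'⟩)]
      rw [cf_Lop_mul_head z (Dop X f) w (by decide) (by decide),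
        cf_Lop_mul_head h (Dop Y f) w (by decide) (by decide), add_zero]
      · intro hw
        apply hx
        rcases uncons w with rfl | ⟨n, v, rfl, hv⟩
        · simp [zero_val] at hw
        · rw [lt_add_of hv] at hw
          have h4 : n = h := by simpa using hw
          subst h4
          refine ⟨lt Y + v, ?_⟩
          rw [lt_add, lt_add, lt_add, act_other (m := Y) (by decide) (by decide), act_a1_Y,
            act_other (m := h) (by decide) (by decide), act_other (m := c1) (by decide) (by decide)]
      · intro hw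
        apply hx
        rcases uncons w with rfl | ⟨n, v, rfl, hv⟩
        · simp [zero_val] at hw
        · rw [lt_add_of hv] at hw
          have h4 : n = z := by simpa using hw
          subst h4
          refine ⟨lt X + v, ?_⟩
          rw [lt_add, lt_add, lt_add, act_other (m := X) (by decide) (by decide), act_a1_X,
            act_other (m := z) (by decide) (by decide), act_other (m := c1) (by decide) (by decide)]
  rw [if_neg hm2, FS.cf_zero]
  split_ifs with h3
  · refine cf_Lop_mul_ne _ _ _ fun x hx => ?_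
    rw [lt_add_of h3] at hx
    rcases act_a1_shape hx with ⟨h4, -⟩ | ⟨h4, -⟩
    · exact hm h4
    · exact hm2 h4
  · rfl

theorem base_D_a2_mul (m : Ltr) (f : FS Mo k) : Dop m (Lop a2 * f) =
    if m = a2 then f - Lop X * Dop X f
    else if m = c2 then Lop z * Dop X f else 0 := by
  ext w
  rw [cf_Dop]
  by_cases hm : m = a2
  · subst hm
    rw [if_pos rfl, FS.cf_sub, cf_L_D]
    by_cases h1 : act a2 w.1 = a2 :: w.1
    · rw [if_pos h1, cf_Lop_mul]
      have h2 := act_a2_self.1 h1
      rw [if_neg h2, sub_zero]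
    · rw [if_neg h1]
      have h2 := mt act_a2_self.2 h1
      rw [not_not] at h2
      rw [if_pos h2, sub_self]
  rw [if_neg hm]
  by_cases hm2 : m = c2
  · subst hm2
    rw [if_pos rfl, if_pos (act_other (by decide) (by decide) _)]
    by_cases hx : ∃ x : Mo, act a2 x.1 = (lt c2 + w).1
    · obtain ⟨x, hx⟩ := hx
      rw [show lt c2 + w = lt a2 + x from ext' hx.symm, cf_Lop_mul]
      rw [lt_add, act_other (m := c2) (by decide) (by decide)] at hx
      rcases act_a2_shape hx with ⟨h3, -⟩ | ⟨-, h3⟩
      · exact absurd h3 (by decide)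
      obtain ⟨v, h4, h5⟩ := h3
      have hv : act z v = z :: v := act_other (by decide) (by decide) _
      have hv2 : act X v = X :: v := act_other (by decide) (by decide) _
      have hv0 : star v [] = v := by
        have := w.2
        rw [h5, star_cons, act_other (m := z) (by decide) (by decide)] at this
        simpa using this
      have hw : w = lt z + ⟨v, hv0⟩ := ext' (by rw [lt_add]; exact h5.trans hv.symm)
      have hx' : x = lt X + ⟨v, hv0⟩ := ext' (by rw [lt_add]; exact h4.trans hv2.symm)
      rw [hw, cf_Lop_mul, cf_Dop, if_pos hv2, hx']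
    · rw [cf_Lop_mul_ne a2 f _ (fun x hx' => hx ⟨x, hx'⟩)]
      rw [cf_Lop_mul_head z (Dop X f) w (by decide) (by decide)]
      intro hw
      apply hx
      rcases uncons w with rfl | ⟨n, v, rfl, hv⟩
      · simp [zero_val] at hw
      · rw [lt_add_of hv] at hw
        have h4 : n = z := by simpa using hw
        subst h4
        refine ⟨lt X + v, ?_⟩
        rw [lt_add, lt_add, lt_add, act_other (m := X) (by decide) (by decide), act_a2_X,
          act_other (m := z) (by decide) (by decide), act_other (m := c2) (by decide) (by decide)]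
  rw [if_neg hm2, FS.cf_zero]
  split_ifs with h3
  · refine cf_Lop_mul_ne _ _ _ fun x hx => ?_
    rw [lt_add_of h3] at hx
    rcases act_a2_shape hx with ⟨h4, -⟩ | ⟨h4, -⟩
    · exact hm h4
    · exact hm2 h4
  · rfl

theorem base_sep (n : ℕ) : ∀ (f : FS Mo k), VV (FS.ep len) (fun m => Dop m) n f →
    ∀ w : Mo, w.1.length < n → f.cf w = 0 := by
  induction n with
  | zero => intro f _ w hw; omega
  | succ n ih =>
    intro f hf w hw
    obtain ⟨h1, h2⟩ := hf
    rcases uncons w with rfl | ⟨m, v, rfl, hv⟩
    · exact h1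
    · have h3 := ih (Dop m f) (h2 m) v (by rw [lt_add_of hv] at hw; simpa using hw)
      rwa [cf_Dop, if_pos hv] at h3

/-- The ring of formal series satisfies the interface. -/
noncomputable def baseApi (k : Type) [Field k] : Api k (FS Mo k) where
  C := FS.C
  C_comm c f := by ext w; rw [FS.cf_C_mul, FS.cf_mul_C]
  ep := FS.ep len
  ep_C c := FS.cf_C_zero c
  L := Lop
  D := Dop
  ep_L m := FS.cf_mono_ne 1 (lt_ne_zero' m).symm
  decomp := base_decomp
  D_C m c := by
    ext w
    rw [cf_Dop]
    split_ifs
    · exact FS.cf_C _ _ (lt_ne_zero _ _)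
    · rfl
  D_C_mul m c f := by
    ext w
    rw [cf_Dop, FS.cf_C_mul, FS.cf_C_mul, cf_Dop]
    split_ifs
    · rfl
    · rw [mul_zero]
  D_L_mul := base_D_L_mul
  D_a1_mul := base_D_a1_mul
  D_a2_mul := base_D_a2_mul
  DX_a1 f := by
    ext w
    rw [cf_Dop, cf_Dop, FS.cf_zero]
    split_ifs with h1 h2
    · rw [lt_add_of h1, act_a1_X] at h2; simp at h2
    · rfl
    · rfl
  DY_a1 f := by
    ext w
    rw [cf_Dop, cf_Dop, FS.cf_zero]
    split_ifs with h1 h2
    · rw [lt_add_of h1, act_a1_Y] at h2; simp at h2
    · rfl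
    · rfl
  DX_a2 f := by
    ext w
    rw [cf_Dop, cf_Dop, FS.cf_zero]
    split_ifs with h1 h2
    · rw [lt_add_of h1, act_a2_X] at h2; simp at h2
    · rfl
    · rfl
  unit f hf := FS.isUnit_of_ep len f hf
  sep f hf := by
    ext w
    exact base_sep (w.1.length + 1) f (hf _) w (Nat.lt_succ_self _)

end

theorem base_ok : S_BASE := fun k _ => ⟨FS Mo k, inferInstance, ⟨baseApi k⟩⟩

end K1H43.NI
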