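import Pool.Agent.K1H43.NI.Api

/-!
MP_17d087_al, piece DOM: no zero divisors and an additive order.
-/

namespace K1H43.NI

namespace Dom

variable {k K : Type} [Field k] [Ring K] (A : Api k K)

theorem V_anti_succ (n : ℕ) : ∀ f : K, A.V (n + 1) f → A.V n f := by
  induction n with
  | zero => intro f _; exact A.V_zero f
  | succ n ih =>
    intro f hf
    rw [A.V_succ] at hf ⊢
    exact ⟨hf.1, fun m => ih _ (hf.2 m)⟩

theorem V_anti {n m : ℕ} (h : n ≤ m) {f : K} (hf : A.V m f) : A.V n f := by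
  induction m with
  | zero =>
    have : n = 0 := by omega
    subst this
    exact hf
  | succ m ih =>
    rcases Nat.lt_or_ge n (m + 1) with h1 | h1
    · exact ih (by omega) (V_anti_succ A m f hf)
    · have : n = m + 1 := by omega
      subst this
      exact hf

theorem V_zero' (n : ℕ) : A.V n (0 : K) := by
  induction n with
  | zero => exact A.V_zero 0
  | succ n ih =>
    rw [A.V_succ]
    refine ⟨map_zero _, fun m => ?_⟩
    rw [map_zero]
    exact ih

theorem exists_ord {f : K} (hf : f ≠ 0) : ∃ N : ℕ, ∀ n, A.V n f ↔ n ≤ N := by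
  classical
  have h1 : ∃ n, ¬ A.V n f := by
    by_contra h
    push Not at h
    exact hf (A.eq_zero_of_V h)
  obtain ⟨M, hM⟩ : ∃ M, M = Nat.find h1 := ⟨_, rfl⟩
  have h2 : ¬ A.V M f := by rw [hM]; exact Nat.find_spec h1
  have h3 : M ≠ 0 := by
    intro h0
    rw [h0] at h2
    exact h2 (A.V_zero f)
  refine ⟨M - 1, fun n => ⟨fun hn => ?_, fun hn => ?_⟩⟩
  · by_contra h4
    exact h2 (V_anti A (by omega) hn)
  · have h5 : n < Nat.find h1 := by omega
    have h6 := Nat.find_min h1 h5
    push Not at h6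
    exact h6

end Dom

open Dom in
theorem dom_ok (h : S_ORD) : S_DOM := by
  classical
  intro k K _ _ A
  obtain ⟨h1, h2, h3, h4⟩ := h k K A
  have hex : ∀ f : K, ∃ N : ℕ, f ≠ 0 → ∀ n, A.V n f ↔ n ≤ N := by
    intro f
    by_cases hf : f = 0
    · exact ⟨0, fun h => absurd hf h⟩
    · obtain ⟨N, hN⟩ := exists_ord A hf
      exact ⟨N, fun _ => hN⟩
  choose ord hord using hex
  have hprod : ∀ f g : K, f ≠ 0 → g ≠ 0 →
      A.V (ord f + ord g) (f * g) ∧ ¬ A.V (ord f + ord g + 1) (f * g) := by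
    intro f g hf hg
    have a1 : A.V (ord f) f := (hord f hf _).2 le_rfl
    have a2 : ¬ A.V (ord f + 1) f := fun h => by
      have := (hord f hf _).1 h
      omega
    have b1 : A.V (ord g) g := (hord g hg _).2 le_rfl
    have b2 : ¬ A.V (ord g + 1) g := fun h => by
      have := (hord g hg _).1 h
      omega
    exact ⟨h2 _ _ _ _ a1 b1, h3 _ _ _ _ a1 a2 b1 b2⟩
  have hnz : ∀ f g : K, f ≠ 0 → g ≠ 0 → f * g ≠ 0 := by
    intro f g hf hg h0
    have := (hprod f g hf hg).2
    rw [h0] at this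
    exact this (V_zero' A _)
  refine ⟨fun f g hfg => ?_, ord, fun f hf n => hord f hf n, fun f g hf hg => ?_, fun f hf => ?_⟩
  · by_contra hcon
    push Not at hcon
    exact hnz f g hcon.1 hcon.2 hfg
  · obtain ⟨c1, c2⟩ := hprod f g hf hg
    have d1 := (hord (f * g) (hnz f g hf hg) _).1 c1
    have d2 : ¬ (ord f + ord g + 1 ≤ ord (f * g)) := fun h =>
      c2 ((hord (f * g) (hnz f g hf hg) _).2 h)
    omega
  · have e1 : A.V 1 f ↔ A.ep f = 0 := by
      rw [A.V_succ]
      exact ⟨fun h => h.1, fun h => ⟨h, fun m => A.V_zero _⟩⟩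
    have e2 := hord f hf 1
    constructor
    · intro h0 h5
      have := e2.1 (e1.2 h5)
      omega
    · intro h5
      by_contra h0
      exact h5 (e1.1 (e2.2 (by omega)))

end K1H43.NI
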