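import Pool.Agent.K1H43.NI.Api

/-! The subring `T` avoids `XX`. -/

namespace K1H43.NI

open Ltr

namespace Api

variable {k K : Type} [Field k] [Ring K] (A : Api k K)

theorem D_Xi_free {n : Ltr} (hn : Free n) (r r' : K) : A.D n (A.L X * r + A.L Y * r') =
    (if n = X then r else 0) + (if n = Y then r' else 0) := by
  rw [map_add, A.D_free_L hn, A.D_free_L hn]

theorem D_Ze_free {n : Ltr} (hn : Free n) (r r' : K) : A.D n (A.L z * r + A.L h * r') =
    (if n = z then r else 0) + (if n = h then r' else 0) := by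
  rw [map_add, A.D_free_L hn, A.D_free_L hn]

/-- the equation obtained from `De f = t s` by `D_y` and `D_g` -/
theorem fone_eq (e1 e2 r r' s : K)
    (hs : A.De (e1 * (A.L X * r + A.L Y * r') + e2 * (A.L z * r + A.L h * r')) = A.L t * s) :
    ∃ a b a' b' : K, A.C (A.ep e1) * r + a * (A.L X * r + A.L Y * r') +
        b * (A.L z * r + A.L h * r') = 0 ∧
      A.C (A.ep e1) * r' + a' * (A.L X * r + A.L Y * r') + b' * (A.L z * r + A.L h * r') = 0 := by
  have hD : ∀ {n : Ltr}, Free n →
      A.D n (e1 * (A.L X * r + A.L Y * r') + e2 * (A.L z * r + A.L h * r')) =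
        A.C (A.ep e1) * ((if n = X then r else 0) + (if n = Y then r' else 0)) +
        A.D n e1 * (A.L X * r + A.L Y * r') +
        (A.C (A.ep e2) * ((if n = z then r else 0) + (if n = h then r' else 0)) +
          A.D n e2 * (A.L z * r + A.L h * r')) := by
    intro n hn
    rw [map_add, A.D_mul hn, A.D_mul hn, A.D_Xi_free hn, A.D_Ze_free hn]
  have hq := hD free_q
  have hX := hD free_X
  have hY := hD free_Y
  simp only [reduceCtorEq, if_false, if_true, add_zero, zero_add, mul_zero] at hq hX hY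
  unfold De at hs
  rw [hq, hX, hY] at hs
  obtain ⟨Xi, hXi⟩ : ∃ Xi : K, Xi = A.L X * r + A.L Y * r' := ⟨_, rfl⟩
  obtain ⟨Z, hZ⟩ : ∃ Z : K, Z = A.L z * r + A.L h * r' := ⟨_, rfl⟩
  have hy1 : A.D y Xi = 0 := by rw [hXi, A.D_Xi_free free_y]; simp
  have hy2 : A.D y Z = 0 := by rw [hZ, A.D_Ze_free free_y]; simp
  have hg1 : A.D g Xi = 0 := by rw [hXi, A.D_Xi_free free_g]; simp
  have hg2 : A.D g Z = 0 := by rw [hZ, A.D_Ze_free free_g]; simp
  rw [← hXi, ← hZ] at hs ⊢
  refine ⟨A.D y (A.D q e1) + A.D X e1, A.D y (A.D q e2) + A.D X e2,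
    A.D g (A.D q e1) + A.D Y e1, A.D g (A.D q e2) + A.D Y e2, ?_, ?_⟩
  · have h1 := congrArg (A.D y) hs
    simp only [map_add, A.D_free_L free_y, A.D_mul free_y, hy1, hy2, reduceCtorEq, if_false,
      if_true, add_zero, zero_add, mul_zero] at h1
    rw [← h1]
    noncomm_ring
  · have h1 := congrArg (A.D g) hs
    simp only [map_add, A.D_free_L free_g, A.D_mul free_g, hg1, hg2, reduceCtorEq, if_false,
      if_true, add_zero, zero_add, mul_zero] at h1
    rw [← h1]
    noncomm_ring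

end Api

theorem fone_ok (hO : S_ORD) : S_FONE := by
  intro k K _ _ A f hT hX
  obtain ⟨hadd, hmul, -, hL⟩ := hO k K A
  obtain ⟨s, hs⟩ := hT
  obtain ⟨e1, e2, r, r', he, hr, rfl⟩ := hX
  obtain ⟨a, b, a', b', h1, h2⟩ := A.fone_eq e1 e2 r r' s hs
  have hsol : ∀ u v : K, A.C (A.ep e1) * u + v = 0 → u = A.C (-(A.ep e1)⁻¹) * v := by
    intro u v huv
    have h3 : v = -(A.C (A.ep e1) * u) := (neg_eq_of_add_eq_zero_right huv).symm
    rw [h3, mul_neg, ← mul_assoc, ← map_mul, ← neg_mul, ← map_neg, neg_mul, neg_neg,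
      inv_mul_cancel₀ he, map_one, one_mul]
  have hV : ∀ n, A.V n r ∧ A.V n r' := by
    intro n
    induction n with
    | zero => exact ⟨trivial, trivial⟩
    | succ n ih =>
      have hXi : A.V (n + 1) (A.L X * r + A.L Y * r') :=
        hadd _ _ _ (hL n r X Api.free_X ih.1) (hL n r' Y Api.free_Y ih.2)
      have hZ : A.V (n + 1) (A.L z * r + A.L h * r') :=
        hadd _ _ _ (hL n r z Api.free_z ih.1) (hL n r' h Api.free_h ih.2)
      have hm : ∀ a f : K, A.V (n + 1) f → A.V (n + 1) (a * f) := by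
        intro a f hf
        have h3 := hmul 0 (n + 1) a f trivial hf
        rwa [zero_add] at h3
      constructor
      · rw [add_assoc] at h1
        rw [hsol _ _ h1]
        exact hm _ _ (hadd _ _ _ (hm _ _ hXi) (hm _ _ hZ))
      · rw [add_assoc] at h2
        rw [hsol _ _ h2]
        exact hm _ _ (hadd _ _ _ (hm _ _ hXi) (hm _ _ hZ))
  rcases hr with h3 | h3
  · exact h3 (A.eq_zero_of_V fun n => (hV n).1)
  · exact h3 (A.eq_zero_of_V fun n => (hV n).2)

end K1H43.NI
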