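import Pool.Agent.K1H43.NI.Api

/-!
MP_17d087_al: divisor properties of the set `XX`.
-/

namespace K1H43.NI

open Ltr

namespace Api

variable {k K : Type} [Field k] [Ring K] (A : Api k K)

theorem ftwo_DX (r r' e : K) :
    A.D X ((A.L X * r + A.L Y * r') + e * (A.L z * r + A.L h * r')) =
      r + A.D X e * (A.L z * r + A.L h * r') := by
  rw [map_add, map_add, A.D_free_L free_X, A.D_free_L free_X, A.D_mul free_X, map_add,
    A.D_free_L free_X, A.D_free_L free_X, if_pos rfl, if_neg (by decide), if_neg (by decide),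
    if_neg (by decide)]
  simp

theorem ftwo_DY (r r' e : K) :
    A.D Y ((A.L X * r + A.L Y * r') + e * (A.L z * r + A.L h * r')) =
      r' + A.D Y e * (A.L z * r + A.L h * r') := by
  rw [map_add, map_add, A.D_free_L free_Y, A.D_free_L free_Y, A.D_mul free_Y, map_add,
    A.D_free_L free_Y, A.D_free_L free_Y, if_pos rfl, if_neg (by decide), if_neg (by decide),
    if_neg (by decide)]
  simp

theorem ftwo_Dz (r r' : K) : A.D z (A.L z * r + A.L h * r') = r := by
  rw [map_add, A.D_free_L free_z, A.D_free_L free_z, if_pos rfl, if_neg (by decide), add_zero]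

theorem ftwo_Dh (r r' : K) : A.D h (A.L z * r + A.L h * r') = r' := by
  rw [map_add, A.D_free_L free_h, A.D_free_L free_h, if_pos rfl, if_neg (by decide), zero_add]

theorem ftwo_N_unit (e : K) : IsUnit (1 + A.L z * A.D X e + A.L h * A.D Y e) := by
  apply A.unit
  simp [A.ep_L]

theorem ftwo_comb (r r' e : K) :
    A.L z * A.D X ((A.L X * r + A.L Y * r') + e * (A.L z * r + A.L h * r')) +
      A.L h * A.D Y ((A.L X * r + A.L Y * r') + e * (A.L z * r + A.L h * r')) =
    (1 + A.L z * A.D X e + A.L h * A.D Y e) * (A.L z * r + A.L h * r') := by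
  rw [ftwo_DX, ftwo_DY]
  noncomm_ring

/-- A unit of `K` has a nonzero constant term. -/
theorem ep_inv_ne (u : Kˣ) : A.ep (↑u⁻¹ : K) ≠ 0 := by
  intro h0
  have h1 : A.ep ((↑u⁻¹ : K) * (u : K)) = 1 := by rw [Units.inv_mul, map_one]
  rw [map_mul, h0, zero_mul] at h1
  exact zero_ne_one h1

end Api

theorem ftwo_ok (hd : S_DOM) : S_FTWO := by
  intro k K _ _ A
  obtain ⟨hdom, -⟩ := hd k K A
  refine ⟨?_, ?_, ?_, ?_⟩
  · rintro f ⟨e1, e2, r, r', he1, hr, rfl⟩
    refine ⟨by simp [A.ep_L], ?_⟩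
    intro h0
    obtain ⟨u, rfl⟩ := A.unit e1 he1
    have h1 : (A.L X * r + A.L Y * r') + (↑u⁻¹ * e2) * (A.L z * r + A.L h * r') = 0 := by
      have h2 := congrArg (fun x => (↑u⁻¹ : K) * x) h0
      simp only [mul_zero, mul_add (↑u⁻¹ : K), ← mul_assoc (↑u⁻¹ : K), Units.inv_mul, one_mul] at h2
      rw [← h2]
    have h3 := A.ftwo_comb r r' (↑u⁻¹ * e2)
    rw [h1, map_zero, map_zero, mul_zero, mul_zero, add_zero] at h3
    have h4 : A.L z * r + A.L h * r' = 0 := by
      obtain ⟨n, hn⟩ := A.ftwo_N_unit (↑u⁻¹ * e2)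
      rw [← hn] at h3
      have h5 := congrArg (fun x => (↑n⁻¹ : K) * x) h3
      simp only [mul_zero, ← mul_assoc (↑n⁻¹ : K), Units.inv_mul, one_mul] at h5
      exact h5.symm
    have h6 := A.ftwo_Dz r r'
    have h7 := A.ftwo_Dh r r'
    rw [h4, map_zero] at h6 h7
    rcases hr with hr | hr
    · exact hr h6.symm
    · exact hr h7.symm
  · intro u w hu
    obtain ⟨v, rfl⟩ := A.unit u hu
    constructor
    · rintro ⟨e1, e2, r, r', he1, hr, hf⟩
      refine ⟨↑v⁻¹ * e1, ↑v⁻¹ * e2, r, r', ?_, hr, ?_⟩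
      · rw [map_mul]
        exact mul_ne_zero (A.ep_inv_ne v) he1
      · have h2 := congrArg (fun x => (↑v⁻¹ : K) * x) hf
        simp only [← mul_assoc (↑v⁻¹ : K), Units.inv_mul, one_mul] at h2
        rw [h2]
        noncomm_ring
    · rintro ⟨e1, e2, r, r', he1, hr, rfl⟩
      refine ⟨↑v * e1, ↑v * e2, r, r', ?_, hr, ?_⟩
      · rw [map_mul]
        exact mul_ne_zero hu he1
      · noncomm_ring
  · rintro u w ⟨e1, e2, r, r', he1, hr, rfl⟩ hw
    refine ⟨e1, e2, r * w, r' * w, he1, ?_, ?_⟩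
    · rcases hr with hr | hr
      · left
        intro h0
        rcases hdom _ _ h0 with h1 | h1
        · exact hr h1
        · exact hw h1
      · right
        intro h0
        rcases hdom _ _ h0 with h1 | h1
        · exact hr h1
        · exact hw h1
    · noncomm_ring
  · rintro u w hu hw ⟨e1, e2, r, r', he1, hr, hf⟩
    obtain ⟨v, rfl⟩ := A.unit e1 he1
    -- `u1 = e1⁻¹ u`, `e = e1⁻¹ e2`
    obtain ⟨u1, hu1⟩ : ∃ u1 : K, u1 = ↑v⁻¹ * u := ⟨_, rfl⟩
    obtain ⟨e, hee⟩ : ∃ e : K, e = ↑v⁻¹ * e2 := ⟨_, rfl⟩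
    have hu' : u = ↑v * u1 := by rw [hu1, ← mul_assoc, Units.mul_inv, one_mul]
    have he' : e2 = ↑v * e := by rw [hee, ← mul_assoc, Units.mul_inv, one_mul]
    have hep1 : A.ep u1 = 0 := by rw [hu1, map_mul, hu, mul_zero]
    have h1 : u1 * w = (A.L X * r + A.L Y * r') + e * (A.L z * r + A.L h * r') := by
      have h2 := congrArg (fun x => (↑v⁻¹ : K) * x) hf
      simp only [mul_add (↑v⁻¹ : K), ← mul_assoc (↑v⁻¹ : K), Units.inv_mul, one_mul] at h2
      rw [hu1, hee, h2]
    have h3 := A.ftwo_comb r r' e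
    rw [← h1, A.D_mul Api.free_X, A.D_mul Api.free_Y, hep1, map_zero, zero_mul, zero_mul, zero_add,
      zero_add] at h3
    obtain ⟨n, hn⟩ := A.ftwo_N_unit e
    rw [← hn] at h3
    obtain ⟨ze, hze⟩ : ∃ ze : K, ze = ↑n⁻¹ * (A.L z * A.D X u1 + A.L h * A.D Y u1) := ⟨_, rfl⟩
    have h4 : A.L z * r + A.L h * r' = ze * w := by
      have h5 := congrArg (fun x => (↑n⁻¹ : K) * x) h3
      simp only [← mul_assoc (↑n⁻¹ : K), Units.inv_mul, one_mul] at h5
      rw [← h5, hze]
      noncomm_ring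
    have hepze : A.ep ze = 0 := by
      rw [hze]
      simp [A.ep_L]
    have h6 : r = A.D z ze * w := by
      have h7 := A.ftwo_Dz r r'
      rw [h4, A.D_mul Api.free_z, hepze, map_zero, zero_mul, zero_add] at h7
      exact h7.symm
    have h8 : r' = A.D h ze * w := by
      have h7 := A.ftwo_Dh r r'
      rw [h4, A.D_mul Api.free_h, hepze, map_zero, zero_mul, zero_add] at h7
      exact h7.symm
    have h9 : u1 = (A.L X * A.D z ze + A.L Y * A.D h ze) +
        e * (A.L z * A.D z ze + A.L h * A.D h ze) := by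
      have h10 : (u1 - ((A.L X * A.D z ze + A.L Y * A.D h ze) +
        e * (A.L z * A.D z ze + A.L h * A.D h ze))) * w = 0 := by
        rw [sub_mul, h1, h6, h8]
        noncomm_ring
      rcases hdom _ _ h10 with h11 | h11
      · exact sub_eq_zero.mp h11
      · exact absurd h11 hw
    refine ⟨↑v, e2, A.D z ze, A.D h ze, he1, ?_, ?_⟩
    · rcases hr with hr | hr
      · left
        intro h0
        exact hr (by rw [h6, h0, zero_mul])
      · right
        intro h0
        exact hr (by rw [h8, h0, zero_mul])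
    · rw [hu', he']
      conv_lhs => rw [h9]
      noncomm_ring

end K1H43.NI
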