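import Pool.Agent.K1H43.NI.Api

/-! The order filtration of the ring of formal series is multiplicative and the order is additive. -/

set_option autoImplicit false

namespace K1H43.NI

open Ltr

namespace Ord

variable {k K : Type} [Field k] [Ring K] (A : Api k K)

theorem V_add (n : ℕ) : ∀ f g : K, A.V n f → A.V n g → A.V n (f + g) := by
  induction n with
  | zero => intro f g _ _; exact A.V_zero _
  | succ n ih =>
    intro f g hf hg
    rw [A.V_succ] at hf hg ⊢
    refine ⟨by rw [map_add, hf.1, hg.1, add_zero], fun m => ?_⟩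
    rw [map_add]
    exact ih _ _ (hf.2 m) (hg.2 m)

theorem V_neg (n : ℕ) : ∀ f : K, A.V n f → A.V n (-f) := by
  induction n with
  | zero => intro f _; exact A.V_zero _
  | succ n ih =>
    intro f hf
    rw [A.V_succ] at hf ⊢
    refine ⟨by rw [map_neg, hf.1, neg_zero], fun m => ?_⟩
    rw [map_neg]
    exact ih _ (hf.2 m)

theorem V_sub (n : ℕ) (f g : K) (hf : A.V n f) (hg : A.V n g) : A.V n (f - g) := by
  rw [sub_eq_add_neg]
  exact V_add A n _ _ hf (V_neg A n _ hg)

theorem V_nil (n : ℕ) : A.V n (0 : K) := by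
  induction n with
  | zero => exact A.V_zero _
  | succ n ih =>
    rw [A.V_succ]
    refine ⟨map_zero _, fun m => ?_⟩
    rw [map_zero]
    exact ih

theorem V_C (n : ℕ) (c : k) : ∀ f : K, A.V n f → A.V n (A.C c * f) := by
  induction n with
  | zero => intro f _; exact A.V_zero _
  | succ n ih =>
    intro f hf
    rw [A.V_succ] at hf ⊢
    refine ⟨by rw [map_mul, hf.1, mul_zero], fun m => ?_⟩
    rw [A.D_C_mul]
    exact ih _ (hf.2 m)

theorem V_down (n : ℕ) : ∀ f : K, A.V (n + 1) f → A.V n f := by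
  induction n with
  | zero => intro f _; exact A.V_zero _
  | succ n ih =>
    intro f hf
    rw [A.V_succ] at hf ⊢
    exact ⟨hf.1, fun m => ih _ (hf.2 m)⟩

theorem V_L (n : ℕ) (f : K) (m : Ltr) (h1 : m ≠ a1) (h2 : m ≠ a2) (hf : A.V n f) :
    A.V (n + 1) (A.L m * f) := by
  rw [A.V_succ]
  refine ⟨by rw [map_mul, A.ep_L, zero_mul], fun j => ?_⟩
  rw [A.D_L_mul _ _ _ h1 h2]
  split_ifs
  · exact hf
  · exact V_nil A n

theorem cases_ltr (j : Ltr) : Api.Free j ∨ j = a1 ∨ j = c1 ∨ j = a2 ∨ j = c2 := by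
  unfold Api.Free
  tauto

/-- Left multiplication. -/
theorem V_left (m : ℕ) : ∀ g : K, A.V m g → ∀ f : K, A.V m (f * g) := by
  induction m with
  | zero => intro g _ f; exact A.V_zero _
  | succ m ih =>
    intro g hg f
    have hgd := V_down A m g hg
    rw [A.V_succ] at hg ⊢
    have h1 : ∀ j, A.V m (A.C (A.ep f) * A.D j g) := fun j => V_C A m _ _ (hg.2 j)
    have h2 : ∀ j, A.V m (A.D j f * g) := fun j => ih g hgd _
    have h3 : ∀ (c : k) (x : K), A.V m (A.C c * (x * A.D X g)) :=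
      fun c x => V_C A m _ _ (ih _ (hg.2 X) _)
    have h4 : ∀ (c : k) (x : K), A.V m (A.C c * (x * A.D Y g)) :=
      fun c x => V_C A m _ _ (ih _ (hg.2 Y) _)
    refine ⟨by rw [map_mul, hg.1, mul_zero], fun j => ?_⟩
    rcases cases_ltr j with hj | rfl | rfl | rfl | rfl
    · rw [A.D_mul hj]
      exact V_add A m _ _ (h1 j) (h2 j)
    · rw [A.D_a1_prod, Api.Xi, mul_add]
      exact V_sub A m _ _ (V_add A m _ _ (h1 _) (h2 _)) (V_add A m _ _ (h3 _ _) (h4 _ _))
    · rw [A.D_c1_prod, Api.Ze, mul_add]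
      exact V_add A m _ _ (V_add A m _ _ (h1 _) (h2 _)) (V_add A m _ _ (h3 _ _) (h4 _ _))
    · rw [A.D_a2_prod]
      exact V_sub A m _ _ (V_add A m _ _ (h1 _) (h2 _)) (h3 _ _)
    · rw [A.D_c2_prod]
      exact V_add A m _ _ (V_add A m _ _ (h1 _) (h2 _)) (h3 _ _)

/-- `L m * D j g` has at least the order of `g`. -/
theorem V_LD (m : ℕ) (g : K) (hg : A.V m g) (i j : Ltr) (h1 : i ≠ a1) (h2 : i ≠ a2) :
    A.V m (A.L i * A.D j g) := by
  cases m with
  | zero => exact A.V_zero _
  | succ m => exact V_L A m _ i h1 h2 ((A.V_succ.1 hg).2 j)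

theorem V_Xi (m : ℕ) (g : K) (hg : A.V m g) : A.V m (A.Xi g) :=
  V_add A m _ _ (V_LD A m g hg X X (by decide) (by decide)) (V_LD A m g hg Y Y (by decide) (by decide))

theorem V_Ze (m : ℕ) (g : K) (hg : A.V m g) : A.V m (A.Ze g) :=
  V_add A m _ _ (V_LD A m g hg z X (by decide) (by decide)) (V_LD A m g hg h Y (by decide) (by decide))

/-- Products. -/
theorem V_mul (n m : ℕ) (g : K) (hg : A.V m g) : ∀ f : K, A.V n f → A.V (n + m) (f * g) := by
  induction n with
  | zero =>
    intro f _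
    rw [zero_add]
    exact V_left A m g hg f
  | succ n ih =>
    intro f hf
    rw [A.V_succ] at hf
    have h2 : ∀ j, A.V (n + m) (A.D j f * g) := fun j => ih _ (hf.2 j)
    have hs : ∀ (j : Ltr) (p : K), A.V m p → A.V (n + m) (A.C (A.ep (A.D j f)) * p) := by
      intro j p hp
      cases n with
      | zero => rw [zero_add]; exact V_C A m _ _ hp
      | succ n =>
        have h0 : A.ep (A.D j f) = 0 := (A.V_succ.1 (hf.2 j)).1
        rw [h0, map_zero, zero_mul]
        exact V_nil A _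
    have h0 : ∀ p : K, A.C (A.ep f) * p = 0 := fun p => by rw [hf.1, map_zero, zero_mul]
    have e : n + 1 + m = (n + m) + 1 := by ring
    rw [e, A.V_succ]
    refine ⟨by rw [map_mul, hf.1, zero_mul], fun j => ?_⟩
    rcases cases_ltr j with hj | rfl | rfl | rfl | rfl
    · rw [A.D_mul hj, h0, zero_add]
      exact h2 j
    · rw [A.D_a1_prod, h0, zero_add]
      exact V_sub A _ _ _ (h2 _) (hs _ _ (V_Xi A m g hg))
    · rw [A.D_c1_prod, h0, zero_add]
      exact V_add A _ _ _ (h2 _) (hs _ _ (V_Ze A m g hg))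
    · rw [A.D_a2_prod, h0, zero_add]
      exact V_sub A _ _ _ (h2 _) (hs _ _ (V_LD A m g hg X X (by decide) (by decide)))
    · rw [A.D_c2_prod, h0, zero_add]
      exact V_add A _ _ _ (h2 _) (hs _ _ (V_LD A m g hg z X (by decide) (by decide)))

/-- A unit on the left can be cancelled. -/
theorem V_cancel (m : ℕ) (f g : K) (hf : A.ep f ≠ 0) (h : A.V m (f * g)) : A.V m g := by
  obtain ⟨u, hu⟩ := A.unit f hf
  have h1 := V_left A m _ h (↑u⁻¹)
  rwa [← mul_assoc, ← hu, Units.inv_mul, one_mul] at h1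

/-- The exceptional case. -/
theorem core (m : ℕ) (A1 C1 g v w : K) (α : k) (hα : α ≠ 0) (hA1 : A.ep A1 ≠ 0)
    (hX : A.V m (A.L X * v + A.L Y * w))
    (h1 : A.V (m + 1) (A1 * g - A.C α * (A.L X * v + A.L Y * w)))
    (h2 : A.V (m + 1) (C1 * g + A.C α * (A.L z * v + A.L h * w))) : A.V (m + 1) g := by
  obtain ⟨u, hu⟩ := A.unit A1 hA1
  set Ξ : K := A.L X * v + A.L Y * w with hΞ
  set Z : K := A.L z * v + A.L h * w with hZ
  set η : K := C1 * ↑u⁻¹ with hη
  have hηA : η * A1 = C1 := by rw [hη, ← hu, mul_assoc, Units.inv_mul, mul_one]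
  have h3 : A.V (m + 1) (A.C α * (Z + η * Ξ)) := by
    have h4 := V_sub A _ _ _ h2 (V_left A _ _ h1 η)
    have e : ∀ Z' Ξ' : K, C1 * g + A.C α * Z' - η * (A1 * g - A.C α * Ξ') =
        A.C α * (Z' + η * Ξ') := by
      intro Z' Ξ'
      rw [mul_sub, ← mul_assoc, hηA, mul_add, ← mul_assoc η, ← A.C_comm, mul_assoc]
      abel
    rwa [e] at h4
  have h4 : A.V (m + 1) (Z + η * Ξ) := by
    refine V_cancel A _ (A.C α) _ ?_ h3
    rw [A.ep_C]; exact hα
  rw [A.V_succ] at h4
  have hDη : ∀ j, A.V m (A.D j η * Ξ) := fun j => V_left A m _ hX _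
  have hv : A.V m v := by
    have h5 := h4.2 z
    have e : A.D z (Z + η * Ξ) = v + A.D z η * Ξ := by
      rw [map_add, A.D_mul Api.free_z, hZ, hΞ, map_add, map_add, A.D_free_L Api.free_z,
        A.D_free_L Api.free_z, A.D_free_L Api.free_z, A.D_free_L Api.free_z, if_pos rfl,
        if_neg (by decide), if_neg (by decide), if_neg (by decide), add_zero, add_zero, mul_zero,
        zero_add]
    rw [e] at h5
    have h6 := V_sub A m _ _ h5 (hDη z)
    rwa [add_sub_cancel_right] at h6
  have hw : A.V m w := by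
    have h5 := h4.2 h
    have e : A.D h (Z + η * Ξ) = w + A.D h η * Ξ := by
      rw [map_add, A.D_mul Api.free_h, hZ, hΞ, map_add, map_add, A.D_free_L Api.free_h,
        A.D_free_L Api.free_h, A.D_free_L Api.free_h, A.D_free_L Api.free_h, if_neg (by decide),
        if_pos rfl, if_neg (by decide), if_neg (by decide), zero_add, add_zero, mul_zero,
        zero_add]
    rw [e] at h5
    have h6 := V_sub A m _ _ h5 (hDη h)
    rwa [add_sub_cancel_right] at h6
  have hΞ' : A.V (m + 1) Ξ := V_add A _ _ _ (V_L A m v X (by decide) (by decide) hv)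
    (V_L A m w Y (by decide) (by decide) hw)
  have h7 := V_add A _ _ _ h1 (V_C A _ α _ hΞ')
  rw [sub_add_cancel] at h7
  exact V_cancel A _ A1 _ hA1 h7

/-- The order is additive. -/
theorem order (n m : ℕ) (g : K) (hg : A.V m g) (hg' : ¬ A.V (m + 1) g) :
    ∀ f : K, A.V n f → ¬ A.V (n + 1) f → ¬ A.V (n + m + 1) (f * g) := by
  induction n with
  | zero =>
    intro f _ hf' hfg
    rw [zero_add] at hfg
    have hep : A.ep f ≠ 0 := by
      intro h0
      exact hf' (A.V_succ.2 ⟨h0, fun j => A.V_zero _⟩)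
    exact hg' (V_cancel A _ f g hep hfg)
  | succ n ih =>
    intro f hf hf' hfg
    rw [A.V_succ] at hf
    have e : n + 1 + m + 1 = (n + m + 1) + 1 := by ring
    rw [e, A.V_succ] at hfg
    have h0 : ∀ p : K, A.C (A.ep f) * p = 0 := fun p => by rw [hf.1, map_zero, zero_mul]
    -- if `D j f * g` is in `V (n + m + 1)` then `D j f` is in `V (n + 1)`
    have key : ∀ j, A.V (n + m + 1) (A.D j f * g) → A.V (n + 1) (A.D j f) := by
      intro j hj
      by_contra hcon
      exact ih _ (hf.2 j) hcon hj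
    have hn : ∀ j, A.ep (A.D j f) ≠ 0 → n = 0 := by
      intro j hj
      cases n with
      | zero => rfl
      | succ n => exact absurd (A.V_succ.1 (hf.2 j)).1 hj
    apply hf'
    rw [A.V_succ]
    refine ⟨hf.1, fun j => ?_⟩
    have e1 : A.D a1 (f * g) = A.D a1 f * g - A.C (A.ep (A.D a1 f)) * A.Xi g := by
      rw [A.D_a1_prod, h0, zero_add]
    have e2 : A.D c1 (f * g) = A.D c1 f * g + A.C (A.ep (A.D a1 f)) * A.Ze g := by
      rw [A.D_c1_prod, h0, zero_add]
    have e3 : A.D a2 (f * g) = A.D a2 f * g - A.C (A.ep (A.D a2 f)) * (A.L X * A.D X g) := by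
      rw [A.D_a2_prod, h0, zero_add]
    have e4 : A.D c2 (f * g) = A.D c2 f * g + A.C (A.ep (A.D a2 f)) * (A.L z * A.D X g) := by
      rw [A.D_c2_prod, h0, zero_add]
    have g1 := hfg.2 a1
    have g2 := hfg.2 c1
    have g3 := hfg.2 a2
    have g4 := hfg.2 c2
    rw [e1] at g1
    rw [e2] at g2
    rw [e3] at g3
    rw [e4] at g4
    -- the exceptional cases do not occur
    have ex1 : A.ep (A.D a1 f) = 0 := by
      by_contra hα
      have hn0 := hn _ hα
      subst hn0
      rw [zero_add] at g1 g2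
      exact hg' (core A m _ _ g (A.D X g) (A.D Y g) _ hα hα (V_Xi A m g hg) g1 g2)
    have ex2 : A.ep (A.D a2 f) = 0 := by
      by_contra hα
      have hn0 := hn _ hα
      subst hn0
      rw [zero_add] at g3 g4
      refine hg' (core A m (A.D a2 f) (A.D c2 f) g (A.D X g) 0 (A.ep (A.D a2 f)) hα hα ?_ ?_ ?_)
      · rw [mul_zero, add_zero]
        exact V_LD A m g hg X X (by decide) (by decide)
      · rw [mul_zero, add_zero]; exact g3
      · rw [mul_zero, add_zero]; exact g4
    rw [ex1, map_zero, zero_mul, sub_zero] at g1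
    rw [ex1, map_zero, zero_mul, add_zero] at g2
    rw [ex2, map_zero, zero_mul, sub_zero] at g3
    rw [ex2, map_zero, zero_mul, add_zero] at g4
    rcases cases_ltr j with hj | rfl | rfl | rfl | rfl
    · have g5 := hfg.2 j
      rw [A.D_mul hj, h0, zero_add] at g5
      exact key j g5
    · exact key _ g1
    · exact key _ g2
    · exact key _ g3
    · exact key _ g4

end Ord

theorem ord_ok : S_ORD := by
  intro k K _ _ A
  refine ⟨Ord.V_add A, fun n m f g hf hg => Ord.V_mul A n m g hg f hf,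
    fun n m f g hf hf' hg hg' => Ord.order A n m g hg hg' f hf hf',
    fun n f m hm hf => Ord.V_L A n f m hm.1 hm.2.1 hf⟩

end K1H43.NI
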