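import Mathlib

/-!
Rigid monoids with an additive length embed in groups (statement used for MP_17d087_al).
-/

namespace K1H43.NI

/-- Every cancellative monoid with an additive length function whose elements of length zero are units and
in which any two left divisors of an element are comparable embeds in a group. -/
def S_RIG : Prop := ∀ (M : Type) [CancelMonoid M] (l : M → ℕ),
  (∀ a b, l (a * b) = l a + l b) → (∀ a, l a = 0 → IsUnit a) →
  (∀ a b c d : M, a * b = c * d → (∃ e, a = c * e) ∨ (∃ e, c = a * e)) →
  ∃ (G : Type) (_ : Group G) (f : M →* G), Function.Injective f

end K1H43.NI
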