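import Mathlib
import Pool.Agent.K1H43.NI.RigStm

/-!
Rigid cancellative monoids with an additive length embed in groups (helper10 for helper43).

The monoid `M` acts on `Om M = M ⊕ (Mˣ × (ℕ × M))`: the units act by left multiplication, and every
left multiplication of `M` extends to a permutation of `Om M` which is compatible with the units.
-/

set_option autoImplicit false

namespace K1H43.NI

namespace Rig

open Cardinal

section free

variable {H A B : Type} [Group H]

/-- coordinates for a free action -/
theorem free_prod [MulAction H A] (hA : ∀ (h : H) (a : A), h • a = a → h = 1) :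
    ∃ E : A ≃ Quotient (MulAction.orbitRel H A) × H,
      ∀ h a, E (h • a) = ((E a).1, h * (E a).2) := by
  classical
  have hex : ∀ a : A, ∃ h : H, h • (Quotient.mk (MulAction.orbitRel H A) a).out = a := by
    intro a
    have h1 : (MulAction.orbitRel H A) a (Quotient.mk (MulAction.orbitRel H A) a).out :=
      (MulAction.orbitRel H A).symm' (Quotient.mk_out a)
    exact h1
  choose c hc using hex
  have hq : ∀ (h : H) (a : A), (Quotient.mk (MulAction.orbitRel H A) (h • a)) =
      Quotient.mk (MulAction.orbitRel H A) a := by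
    intro h a
    apply Quotient.sound
    exact ⟨h, rfl⟩
  have hcancel : ∀ (h h' : H) (a : A), h • a = h' • a → h = h' := by
    intro h h' a e
    have h1 : (h'⁻¹ * h) • a = a := by rw [mul_smul, e, inv_smul_smul]
    have h2 := hA _ _ h1
    exact (inv_mul_eq_one.1 h2).symm
  refine ⟨⟨fun a => (Quotient.mk _ a, c a), fun p => p.2 • p.1.out, fun a => hc a, ?_⟩, ?_⟩
  · rintro ⟨q, h⟩
    have e1 : Quotient.mk (MulAction.orbitRel H A) (h • q.out) = q := by
      rw [hq, Quotient.out_eq]
    have e2 : c (h • q.out) = h := by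
      apply hcancel _ _ q.out
      have h3 := hc (h • q.out)
      rw [e1] at h3
      exact h3
    change (Quotient.mk (MulAction.orbitRel H A) (h • q.out), c (h • q.out)) = (q, h)
    rw [e1, e2]
  · intro h a
    have e2 : c (h • a) = h * c a := by
      apply hcancel _ _ (Quotient.mk (MulAction.orbitRel H A) a).out
      have h3 := hc (h • a)
      rw [hq] at h3
      rw [h3, mul_smul, hc]
    change (Quotient.mk (MulAction.orbitRel H A) (h • a), c (h • a)) =
      (Quotient.mk (MulAction.orbitRel H A) a, h * c a)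
    rw [hq, e2]

/-- free actions with equally many orbits are isomorphic -/
theorem free_equiv [MulAction H A] [MulAction H B] (hA : ∀ (h : H) (a : A), h • a = a → h = 1)
    (hB : ∀ (h : H) (b : B), h • b = b → h = 1)
    (hq : #(Quotient (MulAction.orbitRel H A)) = #(Quotient (MulAction.orbitRel H B))) :
    ∃ F : A ≃ B, ∀ (h : H) (a : A), F (h • a) = h • F a := by
  obtain ⟨E, hE⟩ := free_prod hA
  obtain ⟨E', hE'⟩ := free_prod hB
  obtain ⟨φ⟩ := Cardinal.eq.1 hq
  refine ⟨E.trans ((φ.prodCongr (Equiv.refl H)).trans E'.symm), fun h a => ?_⟩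
  apply E'.injective
  rw [hE']
  simp only [Equiv.trans_apply, Equiv.apply_symm_apply, hE, Equiv.prodCongr_apply,
    Equiv.coe_refl, Prod.map_apply, id_eq]
  rfl

end free

variable (M : Type) [CancelMonoid M]

/-- many points -/
abbrev Kap : Type := ℕ × M

/-- the set acted upon -/
abbrev Om : Type := M ⊕ (Mˣ × Kap M)

/-- the action of the units -/
def rho : Mˣ →* Equiv.Perm (Om M) where
  toFun e := Equiv.sumCongr (Units.mulLeft e)
    (Equiv.prodCongr (Equiv.mulLeft e) (Equiv.refl (Kap M)))
  map_one' := by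
    ext w
    rcases w with x | ⟨u, s⟩ <;> simp
  map_mul' e f := by
    ext w
    rcases w with x | ⟨u, s⟩ <;> simp [mul_assoc]

variable {M}

theorem rho_inl (e : Mˣ) (x : M) : rho M e (Sum.inl x) = Sum.inl (e * x) := rfl

theorem rho_inr (e u : Mˣ) (s : Kap M) : rho M e (Sum.inr (u, s)) = Sum.inr (e * u, s) := rfl

/-- the pairs `(e, e')` of units with `e a = a e'` -/
def HH (a : M) : Subgroup (Mˣ × Mˣ) where
  carrier := {p | (p.1 : M) * a = a * p.2}
  mul_mem' := by
    rintro ⟨e, e'⟩ ⟨f, f'⟩ h1 h2
    have h1' : (e : M) * a = a * e' := h1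
    have h2' : (f : M) * a = a * f' := h2
    change ((e * f : Mˣ) : M) * a = a * ((e' * f' : Mˣ) : M)
    rw [Units.val_mul, Units.val_mul, mul_assoc, h2', ← mul_assoc, h1', mul_assoc]
  one_mem' := by
    change ((1 : Mˣ) : M) * a = a * ((1 : Mˣ) : M)
    rw [Units.val_one, one_mul, mul_one]
  inv_mem' := by
    rintro ⟨e, e'⟩ h1
    have h1' : (e : M) * a = a * e' := h1
    change ((e⁻¹ : Mˣ) : M) * a = a * ((e'⁻¹ : Mˣ) : M)
    rw [Units.inv_mul_eq_iff_eq_mul, ← mul_assoc, h1', Units.mul_inv_cancel_right]

/-- the source of the missing part of the permutation -/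
def AA (_a : M) : Type := Mˣ × Kap M

/-- the target of the missing part of the permutation -/
def BB (a : M) : Type := {w : Om M // ∀ x : M, w ≠ Sum.inl (a * x)}

instance actA (a : M) : MulAction (HH a) (AA a) where
  smul h y := (h.1.2 * y.1, y.2)
  one_smul y := by
    change ((1 : Mˣ) * y.1, y.2) = y
    rw [one_mul]
    rfl
  mul_smul h k y := by
    change ((h.1.2 * k.1.2) * y.1, y.2) = (h.1.2 * (k.1.2 * y.1), y.2)
    rw [mul_assoc]

theorem smulA (a : M) (h : HH a) (u : Mˣ) (s : Kap M) :
    h • (show AA a from (u, s)) = (show AA a from (h.1.2 * u, s)) := rfl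

theorem BB_inv {a : M} (h : HH a) {w : Om M} (hw : ∀ x : M, w ≠ Sum.inl (a * x)) (x : M) :
    rho M h.1.1 w ≠ Sum.inl (a * x) := by
  intro hc
  have h1 : w = rho M (h.1.1)⁻¹ (Sum.inl (a * x)) := by
    rw [← hc, ← Equiv.Perm.mul_apply, ← map_mul, inv_mul_cancel, map_one, Equiv.Perm.one_apply]
  have h2 : ((h.1.1)⁻¹ : Mˣ) * a = a * ((h.1.2)⁻¹ : Mˣ) := (HH a).inv_mem h.2
  rw [rho_inl, ← mul_assoc, h2, mul_assoc] at h1
  exact hw _ h1

instance actB (a : M) : MulAction (HH a) (BB a) where
  smul h y := ⟨rho M h.1.1 y.1, BB_inv h y.2⟩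
  one_smul y := by
    apply Subtype.ext
    change rho M 1 y.1 = y.1
    rw [map_one, Equiv.Perm.one_apply]
  mul_smul h k y := by
    apply Subtype.ext
    change rho M (h.1.1 * k.1.1) y.1 = rho M h.1.1 (rho M k.1.1 y.1)
    rw [map_mul, Equiv.Perm.mul_apply]

theorem freeA (a : M) (h : HH a) (y : AA a) (e : h • y = y) : h = 1 := by
  have h1 : h.1.2 * y.1 = y.1 := congrArg Prod.fst e
  have h2 : h.1.2 = 1 := by simpa using h1
  have h3 : (h.1.1 : M) * a = a * h.1.2 := h.2
  rw [h2, Units.val_one, mul_one] at h3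
  have h4 : h.1.1 = 1 := by
    apply Units.ext
    rw [Units.val_one]
    exact mul_right_cancel (h3.trans (one_mul a).symm)
  exact Subtype.ext (Prod.ext h4 h2)

theorem freeB (a : M) (h : HH a) (y : BB a) (e : h • y = y) : h = 1 := by
  have h1 : rho M h.1.1 y.1 = y.1 := congrArg Subtype.val e
  have h2 : h.1.1 = 1 := by
    rcases hy : y.1 with x | ⟨u, s⟩
    · rw [hy, rho_inl] at h1
      have h5 := Sum.inl.inj h1
      apply Units.ext
      rw [Units.val_one]
      exact mul_right_cancel (h5.trans (one_mul x).symm)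
    · rw [hy, rho_inr] at h1
      have h5 := congrArg Prod.fst (Sum.inr.inj h1)
      simpa using h5
  have h3 : (h.1.1 : M) * a = a * h.1.2 := h.2
  rw [h2, Units.val_one, one_mul] at h3
  have h4 : h.1.2 = 1 := by
    apply Units.ext
    rw [Units.val_one]
    exact (mul_left_cancel (h3.symm.trans (mul_one a).symm))
  exact Subtype.ext (Prod.ext h2 h4)

theorem card_kap_inf : ℵ₀ ≤ #(Kap M) := Cardinal.infinite_iff.1 inferInstance

omit [CancelMonoid M] in
theorem card_M : #M ≤ #(Kap M) :=
  Cardinal.mk_le_of_injective (f := fun x : M => ((0 : ℕ), x)) fun _ _ h => (Prod.ext_iff.1 h).2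

theorem card_U : #(Mˣ) ≤ #(Kap M) :=
  (Cardinal.mk_le_of_injective (f := fun x : Mˣ => (x : M)) Units.val_injective).trans card_M

theorem card_UK : #(Mˣ × Kap M) ≤ #(Kap M) := by
  rw [Cardinal.mk_prod, Cardinal.lift_id, Cardinal.lift_id]
  calc #(Mˣ) * #(Kap M) ≤ #(Kap M) * #(Kap M) := by gcongr; exact card_U
    _ = #(Kap M) := Cardinal.mul_eq_self card_kap_inf

theorem card_Om : #(Om M) ≤ #(Kap M) := by
  rw [Cardinal.mk_sum, Cardinal.lift_id, Cardinal.lift_id]
  calc #M + #(Mˣ × Kap M) ≤ #(Kap M) + #(Kap M) := add_le_add card_M card_UK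
    _ = #(Kap M) := Cardinal.add_eq_self card_kap_inf

theorem cardA (a : M) : #(Quotient (MulAction.orbitRel (HH a) (AA a))) = #(Kap M) := by
  refine le_antisymm ((Cardinal.mk_le_of_surjective Quotient.mk_surjective).trans card_UK) ?_
  refine Cardinal.mk_le_of_injective
    (f := fun s : Kap M => Quotient.mk (MulAction.orbitRel (HH a) (AA a))
      (show AA a from (1, s))) fun s s' h => ?_
  obtain ⟨k, hk⟩ := Quotient.exact h
  exact (congrArg Prod.snd hk).symm

theorem cardB (a : M) : #(Quotient (MulAction.orbitRel (HH a) (BB a))) = #(Kap M) := by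
  refine le_antisymm ((Cardinal.mk_le_of_surjective Quotient.mk_surjective).trans
    ((Cardinal.mk_le_of_injective (f := fun y : BB a => y.1) Subtype.val_injective).trans
      card_Om)) ?_
  refine Cardinal.mk_le_of_injective
    (f := fun s : Kap M => Quotient.mk (MulAction.orbitRel (HH a) (BB a))
      (⟨Sum.inr (1, s), fun x h => by cases h⟩ : BB a)) fun s s' h => ?_
  obtain ⟨k, hk⟩ := Quotient.exact h
  have h1 : rho M k.1.1 (Sum.inr (1, s')) = Sum.inr (1, s) := congrArg Subtype.val hk
  rw [rho_inr] at h1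
  exact (congrArg Prod.snd (Sum.inr.inj h1)).symm

/-- extension of a left multiplication to a permutation -/
theorem ext_perm (a : M) : ∃ π : Equiv.Perm (Om M), (∀ x, π (Sum.inl x) = Sum.inl (a * x)) ∧
    ∀ e e' : Mˣ, (e : M) * a = a * e' → rho M e * π = π * rho M e' := by
  obtain ⟨F, hF⟩ := free_equiv (freeA a) (freeB a) ((cardA a).trans (cardB a).symm)
  let f : Om M → Om M := Sum.elim (fun x => Sum.inl (a * x)) (fun y => (F y).1)
  have hinj : Function.Injective f := by
    rintro (x | y) (x' | y') h
    · have h1 : (Sum.inl (a * x) : Om M) = Sum.inl (a * x') := h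
      rw [mul_left_cancel (Sum.inl.inj h1)]
    · exact absurd (show (F y').1 = Sum.inl (a * x) from h.symm) ((F y').2 x)
    · exact absurd (show (F y).1 = Sum.inl (a * x') from h) ((F y).2 x')
    · have h1 : (F y).1 = (F y').1 := h
      rw [F.injective (Subtype.ext h1)]
  have hsurj : Function.Surjective f := by
    intro w
    by_cases hw : ∀ x : M, w ≠ Sum.inl (a * x)
    · exact ⟨Sum.inr (F.symm (show BB a from ⟨w, hw⟩)),
        congrArg Subtype.val (F.apply_symm_apply (show BB a from ⟨w, hw⟩))⟩
    · push Not at hw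
      obtain ⟨x, rfl⟩ := hw
      exact ⟨Sum.inl x, rfl⟩
  refine ⟨Equiv.ofBijective f ⟨hinj, hsurj⟩, fun x => rfl, fun e e' h => ?_⟩
  ext1 w
  rw [Equiv.Perm.mul_apply, Equiv.Perm.mul_apply]
  rcases w with x | y
  · change rho M e (Sum.inl (a * x)) = Sum.inl (a * (e' * x))
    rw [rho_inl, ← mul_assoc, h, mul_assoc]
  · have h1 := hF ⟨(e, e'), h⟩ y
    exact (congrArg Subtype.val h1).symm

/-- left multiplications for all elements, compatible with the units -/
theorem ext_all (M : Type) [CancelMonoid M] : ∃ P : M → Equiv.Perm (Om M),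
    (∀ b x, P b (Sum.inl x) = Sum.inl (b * x)) ∧ (∀ (e : Mˣ) (b : M), P (e * b) = rho M e * P b) ∧
    ∀ (e : Mˣ) (b : M), P (b * e) = P b * rho M e := by
  classical
  choose π hπ1 hπ2 using fun a : M => ext_perm a
  let st : Setoid M :=
    { r := fun b a => ∃ e e' : Mˣ, b = e * a * e'
      iseqv := by
        refine ⟨fun a => ⟨1, 1, by simp⟩, ?_, ?_⟩
        · rintro b a ⟨e, e', h⟩
          refine ⟨e⁻¹, e'⁻¹, ?_⟩
          rw [h]
          simp [mul_assoc]
        · rintro b a c ⟨e, e', h⟩ ⟨f, f', h'⟩
          refine ⟨e * f, f' * e', ?_⟩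
          rw [h, h']
          simp [mul_assoc] }
  let R : M → M := fun b => (Quotient.mk st b).out
  have hR : ∀ b, ∃ e e' : Mˣ, b = e * R b * e' := fun b => Setoid.symm (Quotient.mk_out b)
  have hRe : ∀ b (e e' : Mˣ), R (e * b * e') = R b := fun b e e' => by
    have : Quotient.mk st (e * b * e') = Quotient.mk st b := Quotient.sound ⟨e, e', rfl⟩
    simp only [R, this]
  choose E E' hE using hR
  let P : M → Equiv.Perm (Om M) := fun b => rho M (E b) * π (R b) * rho M (E' b)
  -- independence of the choice
  have key : ∀ (r : M) (e e' f f' : Mˣ), (e : M) * r * e' = f * r * f' →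
      rho M e * π r * rho M e' = rho M f * π r * rho M f' := by
    intro r e e' f f' h
    have h1 : ((f⁻¹ * e : Mˣ) : M) * r = r * ((f' * e'⁻¹ : Mˣ) : M) := by
      rw [Units.val_mul, Units.val_mul, mul_assoc, Units.inv_mul_eq_iff_eq_mul, ← mul_assoc,
        ← mul_assoc, ← h, Units.mul_inv_cancel_right]
    have h2 := hπ2 r _ _ h1
    rw [map_mul, map_mul, map_inv, map_inv] at h2
    calc rho M e * π r * rho M e' = rho M f * ((rho M f)⁻¹ * rho M e * π r) * rho M e' := by group
      _ = rho M f * (π r * (rho M f' * (rho M e')⁻¹)) * rho M e' := by rw [h2]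
      _ = _ := by group
  have hP : ∀ (b : M) (e e' : Mˣ), P (e * b * e') = rho M e * P b * rho M e' := by
    intro b e e'
    change rho M (E (e * b * e')) * π (R (e * b * e')) * rho M (E' (e * b * e')) =
      rho M e * (rho M (E b) * π (R b) * rho M (E' b)) * rho M e'
    rw [hRe]
    have h3 : rho M e * (rho M (E b) * π (R b) * rho M (E' b)) * rho M e' =
        rho M (e * E b) * π (R b) * rho M (E' b * e') := by
      rw [map_mul, map_mul]
      group
    rw [h3]
    apply key
    have h4 := hE (e * b * e')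
    rw [hRe] at h4
    rw [← h4]
    conv_lhs => rw [hE b]
    simp only [Units.val_mul, mul_assoc]
  refine ⟨P, fun b x => ?_, fun e b => ?_, fun e b => ?_⟩
  · change rho M (E b) (π (R b) (rho M (E' b) (Sum.inl x))) = Sum.inl (b * x)
    rw [rho_inl, hπ1, rho_inl]
    conv_rhs => rw [hE b]
    simp only [mul_assoc]
  · have := hP b e 1
    simpa using this
  · have := hP b 1 e
    simpa using this

/-- the permutations attached to the factorisations of an element -/
inductive Rep (P : M → Equiv.Perm (Om M)) : M → Equiv.Perm (Om M) → Prop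
  | unit (u : Mˣ) : Rep P (u : M) (rho M u)
  | step (a v : M) (σ : Equiv.Perm (Om M)) : Irreducible a → Rep P v σ → Rep P (a * v) (P a * σ)

theorem isUnit_of_mul {a v : M} {u : Mˣ} (h : a * v = u) : IsUnit a := by
  have h1 : a * (v * (u⁻¹ : Mˣ)) = 1 := by rw [← mul_assoc, h, Units.mul_inv]
  have h2 : (v * (u⁻¹ : Mˣ)) * a = 1 := by
    apply mul_left_cancel (a := a)
    rw [← mul_assoc, h1, one_mul, mul_one]
  exact ⟨⟨a, v * (u⁻¹ : Mˣ), h1, h2⟩, rfl⟩

end Rig

open Rig in
theorem rig : S_RIG := by
  classical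
  intro M _ l hl hl0 hrig
  obtain ⟨P, hP1, hP2, hP3⟩ := ext_all M
  -- lengths
  have hl1 : l 1 = 0 := by
    have := hl 1 1
    rw [mul_one] at this
    omega
  have hpos : ∀ a : M, ¬ IsUnit a → 0 < l a := fun a ha =>
    Nat.pos_of_ne_zero fun h => ha (hl0 a h)
  -- the units act
  have hE : ∀ (e : Mˣ) (w : M) (σ : Equiv.Perm (Om M)), Rep P w σ →
      Rep P (e * w) (rho M e * σ) := by
    intro e w σ h
    cases h with
    | unit u =>
      rw [← Units.val_mul, ← map_mul]
      exact Rep.unit _
    | step a v σ ha hv =>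
      rw [← mul_assoc, ← mul_assoc, ← hP2]
      exact Rep.step _ _ _ ((irreducible_units_mul e).2 ha) hv
  -- uniqueness
  have huniq : ∀ n : ℕ, ∀ (w : M), l w = n → ∀ σ σ' : Equiv.Perm (Om M), Rep P w σ →
      Rep P w σ' → σ = σ' := by
    intro n
    induction n using Nat.strong_induction_on with
    | _ n ih =>
      -- one order of the two factorisations
      have aux : ∀ (a b v v' e : M) (σ σ' : Equiv.Perm (Om M)), l (b * v') = n →
          Irreducible a → Irreducible b → a * v = b * v' → a = b * e → Rep P v σ → Rep P v' σ' →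
          P a * σ = P b * σ' := by
        intro a b v v' e σ σ' hn ha hb h1 h2 hv hv'
        have he : IsUnit e := (ha.isUnit_or_isUnit h2).resolve_left hb.not_isUnit
        obtain ⟨e, rfl⟩ := he
        have h3 : v' = e * v := by
          rw [h2, mul_assoc] at h1
          exact (mul_left_cancel h1).symm
        have h4 : l v' < n := by
          have := hl b v'
          have := hpos b hb.not_isUnit
          omega
        have h5 : σ' = rho M e * σ := by
          refine ih (l v') h4 v' rfl _ _ hv' ?_
          rw [h3]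
          exact hE e v σ hv
        rw [h5, h2, hP3, mul_assoc]
      intro w hw σ σ' h h'
      cases h with
      | unit u =>
        generalize hz : (u : M) = z at h'
        cases h' with
        | unit u' =>
          rw [Units.ext hz]
        | step b v' σ' hb hv' =>
          exact absurd (isUnit_of_mul hz.symm) hb.not_isUnit
      | step a v σ ha hv =>
        generalize hz : a * v = z at h'
        cases h' with
        | unit u' =>
          exact absurd (isUnit_of_mul hz) ha.not_isUnit
        | step b v' σ' hb hv' =>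
          rcases hrig _ _ _ _ hz with ⟨e, he⟩ | ⟨e, he⟩
          · exact aux a b v v' e _ _ (by rw [← hz]; exact hw) ha hb hz he hv hv'
          · exact (aux b a v' v e _ _ hw hb ha hz.symm he hv' hv).symm
  -- a first atom
  have hatom : ∀ n : ℕ, ∀ w : M, l w = n → ¬ IsUnit w → ∃ a v, Irreducible a ∧ w = a * v := by
    intro n
    induction n using Nat.strong_induction_on with
    | _ n ih =>
      intro w hw hu
      by_cases hi : Irreducible w
      · exact ⟨w, 1, hi, (mul_one w).symm⟩
      · rw [irreducible_iff] at hi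
        push Not at hi
        obtain ⟨b, c, h1, hb, hc⟩ := hi hu
        have h2 : l b < n := by
          have := hl b c
          have := hpos c hc
          rw [← hw, h1]
          omega
        obtain ⟨a, v, ha, hv⟩ := ih (l b) h2 b rfl hb
        exact ⟨a, v * c, ha, by rw [h1, hv, mul_assoc]⟩
  -- existence
  have hex : ∀ n : ℕ, ∀ w : M, l w = n → ∃ σ, Rep P w σ := by
    intro n
    induction n using Nat.strong_induction_on with
    | _ n ih =>
      intro w hw
      by_cases hu : IsUnit w
      · obtain ⟨u, rfl⟩ := hu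
        exact ⟨_, Rep.unit u⟩
      · obtain ⟨a, v, ha, hv⟩ := hatom n w hw hu
        have h2 : l v < n := by
          have := hl a v
          have := hpos a ha.not_isUnit
          rw [← hw, hv]
          omega
        obtain ⟨σ, hσ⟩ := ih (l v) h2 v rfl
        exact ⟨_, hv ▸ Rep.step a v σ ha hσ⟩
  -- products
  have hmul : ∀ (w : M) (σ : Equiv.Perm (Om M)), Rep P w σ → ∀ (v : M) (τ : Equiv.Perm (Om M)),
      Rep P v τ → Rep P (w * v) (σ * τ) := by
    intro w σ h
    induction h with
    | unit u => exact fun v τ hv => hE u v τ hv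
    | step a w' σ ha _ ih =>
      intro v τ hv
      rw [mul_assoc, mul_assoc]
      exact Rep.step _ _ _ ha (ih v τ hv)
  -- action on the monoid
  have hact : ∀ (w : M) (σ : Equiv.Perm (Om M)), Rep P w σ → ∀ x, σ (Sum.inl x) =
      Sum.inl (w * x) := by
    intro w σ h
    induction h with
    | unit u => exact fun x => rho_inl u x
    | step a w' σ ha _ ih =>
      intro x
      rw [Equiv.Perm.mul_apply, ih, hP1, mul_assoc]
  choose Ψ hΨ using fun w : M => hex (l w) w rfl
  refine ⟨Equiv.Perm (Om M), inferInstance, ⟨⟨Ψ, ?_⟩, ?_⟩, ?_⟩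
  · refine huniq _ 1 rfl _ _ (hΨ 1) ?_
    have := Rep.unit (P := P) (1 : Mˣ)
    rw [map_one, Units.val_one] at this
    exact this
  · intro v w
    exact huniq _ (v * w) rfl _ _ (hΨ _) (hmul _ _ (hΨ v) _ _ (hΨ w))
  · intro v w h
    have h1 : Ψ v = Ψ w := h
    have h2 := hact v _ (hΨ v) 1
    rw [h1, hact w _ (hΨ w) 1, mul_one, mul_one] at h2
    exact (Sum.inl.inj h2).symm

end K1H43.NI
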