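import Pool.Agent.K1H43.NI.Api

/-!
MP_17d087_al, piece NI-SUB: the set `T` is a subring with the scalars, and no injective (possibly
non-unital) homomorphism to a ring makes all its non-zero elements units.
-/

universe v

namespace K1H43.NI

open Ltr

/-- The pure ring-theoretic core. -/
theorem sub_core {R : Type*} {S : Type*} [Ring R] [Ring S] (φ : R →ₙ+* S)
    (hφ : Function.Injective φ) (p1 p2 b1 b2 d1 d2 s t x y z w g h : R)
    (e1 : p1 * s = b1 * t) (e2 : p2 * s = b2 * t)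
    (e3 : p1 * x + b1 * y = d1 * z) (e4 : p2 * x + b2 * y = d2 * z)
    (e5 : p1 * w + b1 * g = d1 * h) (e6 : p2 * w + b2 * g ≠ d2 * h)
    (u1 : IsUnit (φ p1)) (u2 : IsUnit (φ p2)) (u3 : IsUnit (φ t)) (u4 : IsUnit (φ z)) : False := by
  obtain ⟨P1, hP1⟩ := u1
  obtain ⟨P2, hP2⟩ := u2
  obtain ⟨T, hT⟩ := u3
  obtain ⟨Z, hZ⟩ := u4
  apply e6
  apply hφ
  rw [map_add, map_mul, map_mul, map_mul]
  have f1 : φ b1 = P1 * (φ s * (T⁻¹ : Sˣ)) := by
    have := congrArg φ e1
    rw [map_mul, map_mul, ← hP1, ← hT] at this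
    rw [← mul_assoc, this, Units.mul_inv_cancel_right]
  have f2 : φ b2 = P2 * (φ s * (T⁻¹ : Sˣ)) := by
    have := congrArg φ e2
    rw [map_mul, map_mul, ← hP2, ← hT] at this
    rw [← mul_assoc, this, Units.mul_inv_cancel_right]
  set Q : S := φ s * (T⁻¹ : Sˣ) with hQ
  have f3 : φ d1 = P1 * ((φ x + Q * φ y) * (Z⁻¹ : Sˣ)) := by
    have := congrArg φ e3
    rw [map_add, map_mul, map_mul, map_mul, ← hP1, f1, ← hZ, mul_assoc, ← mul_add] at this
    rw [← mul_assoc, this, Units.mul_inv_cancel_right]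
  have f4 : φ d2 = P2 * ((φ x + Q * φ y) * (Z⁻¹ : Sˣ)) := by
    have := congrArg φ e4
    rw [map_add, map_mul, map_mul, map_mul, ← hP2, f2, ← hZ, mul_assoc, ← mul_add] at this
    rw [← mul_assoc, this, Units.mul_inv_cancel_right]
  set Q' : S := (φ x + Q * φ y) * (Z⁻¹ : Sˣ) with hQ'
  have f5 : φ w + Q * φ g = Q' * φ h := by
    have := congrArg φ e5
    rw [map_add, map_mul, map_mul, map_mul, ← hP1, f1, f3, mul_assoc (P1 : S) Q,
      mul_assoc (P1 : S) Q', ← mul_add] at this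
    exact P1.isUnit.mul_left_cancel this
  rw [← hP2, f2, f4, mul_assoc (P2 : S) Q, mul_assoc (P2 : S) Q', ← mul_add, f5]

namespace Api

variable {k K : Type} [Field k] [Ring K] (A : Api k K)

theorem ext' {f g : K} (h : A.ep f = A.ep g) (hD : ∀ m, A.D m f = A.D m g) : f = g := by
  rw [A.decomp f, A.decomp g, h]
  simp only [hD]

theorem De_add (f g : K) : A.De (f + g) = A.De f + A.De g := by
  simp only [De, map_add, mul_add]; abel

theorem De_neg (f : K) : A.De (-f) = -A.De f := by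
  simp only [De, map_neg, mul_neg, neg_add]

theorem De_mul (f g : K) : A.De (f * g) = A.C (A.ep f) * A.De g + A.De f * g := by
  have h : ∀ (c : k) (a b : K), a * (A.C c * b) = A.C c * (a * b) := by
    intro c a b
    rw [← mul_assoc, ← A.C_comm, mul_assoc]
  simp only [De, A.D_mul free_q, A.D_mul free_X, A.D_mul free_Y, mul_add, add_mul, h, mul_assoc]
  abel

theorem De_C (c : k) : A.De (A.C c) = 0 := by
  simp only [De, A.D_C, mul_zero, add_zero]

theorem De_L_mul (m : Ltr) (f : K) (h1 : m ≠ q) (h2 : m ≠ X) (h3 : m ≠ Y) : A.De (A.L m * f) = 0 := by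
  simp only [De, A.D_free_L free_q, A.D_free_L free_X, A.D_free_L free_Y, if_neg (Ne.symm h1),
    if_neg (Ne.symm h2), if_neg (Ne.symm h3), mul_zero, add_zero]

theorem De_L (m : Ltr) (h1 : m ≠ q) (h2 : m ≠ X) (h3 : m ≠ Y) : A.De (A.L m) = 0 := by
  have h := A.De_L_mul m 1 h1 h2 h3
  rwa [mul_one] at h

theorem TT_of_zero {f : K} (h : A.De f = 0) : A.TT f := ⟨0, by rw [h, mul_zero]⟩

theorem TT_C (c : k) : A.TT (A.C c) := A.TT_of_zero (A.De_C c)

/-- The subring `T`. -/
def RT : Subring K where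
  carrier := {f | A.TT f}
  mul_mem' := by
    rintro f g ⟨s, hs⟩ ⟨r, hr⟩
    refine ⟨A.C (A.ep f) * r + s * g, ?_⟩
    rw [A.De_mul, hs, hr, mul_add, ← mul_assoc, A.C_comm, mul_assoc, mul_assoc]
  one_mem' := by
    have h := A.TT_C 1
    rwa [map_one] at h
  add_mem' := by
    rintro f g ⟨s, hs⟩ ⟨r, hr⟩
    exact ⟨s + r, by rw [A.De_add, hs, hr, mul_add]⟩
  zero_mem' := by
    have h := A.TT_C 0
    rwa [map_zero] at h
  neg_mem' := by
    rintro f ⟨s, hs⟩
    exact ⟨-s, by rw [A.De_neg, hs, mul_neg]⟩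

theorem mem_RT {f : K} : f ∈ A.RT ↔ A.TT f := Iff.rfl

include A in
theorem one_ne_zero' : (1 : K) ≠ 0 := by
  intro h
  have := congrArg A.ep h
  rw [map_one, map_zero] at this
  exact one_ne_zero this

theorem L_ne_zero (m : Ltr) : A.L m ≠ 0 := by
  intro h
  have e : A.D m (A.L m * 1) = 0 := by rw [h, zero_mul, map_zero]
  by_cases ha : m = a1
  · subst ha
    rw [A.D_a1_mul, if_pos rfl, A.D_one, A.D_one, mul_zero, mul_zero, add_zero, sub_zero] at e
    exact A.one_ne_zero' e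
  by_cases hb : m = a2
  · subst hb
    rw [A.D_a2_mul, if_pos rfl, A.D_one, mul_zero, sub_zero] at e
    exact A.one_ne_zero' e
  rw [A.D_L_mul _ _ _ ha hb, if_pos rfl] at e
  exact A.one_ne_zero' e

theorem rel_a1X : A.L a1 * A.L X = A.L c1 * A.L z := by
  apply A.ext'
  · simp [A.ep_L]
  · intro m
    rw [A.D_a1_mul, A.D_L_mul _ _ _ (by decide) (by decide), A.D_L free_X, A.D_L free_Y, if_pos rfl,
      if_neg (show ¬ (Y : Ltr) = X by decide), mul_one, mul_one, mul_zero, mul_zero, add_zero, add_zero,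
      sub_self]
    by_cases h : m = a1
    · subst h; rw [if_pos rfl, if_neg (by decide)]
    · rw [if_neg h]

theorem rel_a2X : A.L a2 * A.L X = A.L c2 * A.L z := by
  apply A.ext'
  · simp [A.ep_L]
  · intro m
    rw [A.D_a2_mul, A.D_L_mul _ _ _ (by decide) (by decide), A.D_L free_X, if_pos rfl,
      mul_one, mul_one, sub_self]
    by_cases h : m = a2
    · subst h; rw [if_pos rfl, if_neg (by decide)]
    · rw [if_neg h]

theorem rel_a1Y : A.L a1 * A.L Y = A.L c1 * A.L h := by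
  apply A.ext'
  · simp [A.ep_L]
  · intro m
    rw [A.D_a1_mul, A.D_L_mul _ _ _ (by decide) (by decide), A.D_L free_X, A.D_L free_Y, if_pos rfl,
      if_neg (show ¬ (X : Ltr) = Y by decide), mul_one, mul_one, mul_zero, mul_zero, zero_add, zero_add,
      sub_self]
    by_cases h : m = a1
    · subst h; rw [if_pos rfl, if_neg (by decide)]
    · rw [if_neg h]

theorem rel_a2Y : A.L a2 * A.L Y ≠ A.L c2 * A.L h := by
  intro e
  have := congrArg (A.D a2) e
  rw [A.D_a2_mul, if_pos rfl, A.D_L_mul _ _ _ (by decide) (by decide), if_neg (by decide),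
    A.D_L free_X, if_neg (by decide), mul_zero, sub_zero] at this
  exact A.L_ne_zero Y this

theorem TT_L (m : Ltr) (h1 : m ≠ q) (h2 : m ≠ X) (h3 : m ≠ Y) : A.TT (A.L m) :=
  A.TT_of_zero (A.De_L m h1 h2 h3)

theorem TT_s : A.TT (A.L q * A.L t) := by
  refine ⟨1, ?_⟩
  simp [De, A.D_free_L free_q, A.D_free_L free_X, A.D_free_L free_Y]

theorem TT_x : A.TT (A.L X - A.L q * A.L y) := by
  apply A.TT_of_zero
  simp [De, A.D_free_L free_q, A.D_free_L free_X, A.D_free_L free_Y, A.D_L free_q, A.D_L free_X,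
    A.D_L free_Y]

theorem TT_w : A.TT (A.L Y - A.L q * A.L g) := by
  apply A.TT_of_zero
  simp [De, A.D_free_L free_q, A.D_free_L free_X, A.D_free_L free_Y, A.D_L free_q, A.D_L free_X,
    A.D_L free_Y]

end Api

theorem sub_ok : S_SUB.{v} := by
  intro k K _ _ A
  refine ⟨A.RT, fun f => A.mem_RT, A.TT_C, ?_⟩
  intro S _ φ hφ
  by_contra hcon
  push Not at hcon
  let el : ∀ m : Ltr, m ≠ q → m ≠ X → m ≠ Y → A.RT := fun m h1 h2 h3 => ⟨A.L m, A.TT_L m h1 h2 h3⟩
  have ne : ∀ (m : Ltr) (h1 : m ≠ q) (h2 : m ≠ X) (h3 : m ≠ Y), el m h1 h2 h3 ≠ 0 := by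
    intro m h1 h2 h3 e
    exact A.L_ne_zero m (congrArg Subtype.val e)
  refine sub_core φ hφ (el a1 (by decide) (by decide) (by decide))
    (el a2 (by decide) (by decide) (by decide))
    ⟨A.L a1 * A.L q, A.TT_of_zero (A.De_L_mul _ _ (by decide) (by decide) (by decide))⟩
    ⟨A.L a2 * A.L q, A.TT_of_zero (A.De_L_mul _ _ (by decide) (by decide) (by decide))⟩
    (el c1 (by decide) (by decide) (by decide)) (el c2 (by decide) (by decide) (by decide))
    ⟨_, A.TT_s⟩ (el t (by decide) (by decide) (by decide)) ⟨_, A.TT_x⟩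
    (el y (by decide) (by decide) (by decide)) (el z (by decide) (by decide) (by decide)) ⟨_, A.TT_w⟩
    (el g (by decide) (by decide) (by decide)) (el h (by decide) (by decide) (by decide))
    ?_ ?_ ?_ ?_ ?_ ?_
    (hcon _ (ne a1 (by decide) (by decide) (by decide)))
    (hcon _ (ne a2 (by decide) (by decide) (by decide)))
    (hcon _ (ne t (by decide) (by decide) (by decide)))
    (hcon _ (ne z (by decide) (by decide) (by decide)))
  · apply Subtype.ext
    change A.L a1 * (A.L q * A.L t) = A.L a1 * A.L q * A.L t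
    rw [mul_assoc]
  · apply Subtype.ext
    change A.L a2 * (A.L q * A.L t) = A.L a2 * A.L q * A.L t
    rw [mul_assoc]
  · apply Subtype.ext
    change A.L a1 * (A.L X - A.L q * A.L y) + A.L a1 * A.L q * A.L y = A.L c1 * A.L z
    rw [mul_sub, mul_assoc, sub_add_cancel, A.rel_a1X]
  · apply Subtype.ext
    change A.L a2 * (A.L X - A.L q * A.L y) + A.L a2 * A.L q * A.L y = A.L c2 * A.L z
    rw [mul_sub, mul_assoc, sub_add_cancel, A.rel_a2X]
  · apply Subtype.ext
    change A.L a1 * (A.L Y - A.L q * A.L g) + A.L a1 * A.L q * A.L g = A.L c1 * A.L h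
    rw [mul_sub, mul_assoc, sub_add_cancel, A.rel_a1Y]
  · intro e
    have e' : A.L a2 * (A.L Y - A.L q * A.L g) + A.L a2 * A.L q * A.L g = A.L c2 * A.L h :=
      congrArg Subtype.val e
    rw [mul_sub, mul_assoc, sub_add_cancel] at e'
    exact A.rel_a2Y e'

end K1H43.NI
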