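import Mathlib
import Pool.Agent.K1H43.NI.Api
import Pool.Agent.K1H43.NI.Base
import Pool.Agent.K1H43.NI.Rig
import Pool.Agent.K1H43.NI.Ord
import Pool.Agent.K1H43.NI.Dom
import Pool.Agent.K1H43.NI.Ftwo
import Pool.Agent.K1H43.NI.Fone
import Pool.Agent.K1H43.NI.Sub
import Pool.Agent.K1H38.NI.Ll
import Pool.Agent.K1H38.NI.Fthree

/-!
MP_17d087_al, assembly.
-/

universe v

namespace K1H43.NI

/-- The nonzero elements outside `XX` form a submonoid. -/
def YY {k K : Type} [Field k] [Ring K] (A : Api k K) (hD : S_DOM) (h2 : S_FTWO) : Submonoid K where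
  carrier := {f | f ≠ 0 ∧ ¬ A.XX f}
  one_mem' := by
    have h1 : A.ep (1 : K) ≠ 0 := by rw [map_one]; exact one_ne_zero
    refine ⟨fun h => h1 (by rw [h, map_zero]), fun h => h1 ((h2 k K A).1 _ h).1⟩
  mul_mem' := by
    rintro a b ⟨ha, ha'⟩ ⟨hb, hb'⟩
    refine ⟨fun h => ?_, fun h => ?_⟩
    · rcases (hD k K A).1 a b h with h | h
      · exact ha h
      · exact hb h
    · by_cases h3 : A.ep a = 0
      · exact ha' ((h2 k K A).2.2.2 a b h3 hb h)
      · exact hb' (((h2 k K A).2.1 a b h3).1 h)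

theorem mem_YY {k K : Type} [Field k] [Ring K] (A : Api k K) (hD : S_DOM) (h2 : S_FTWO) (f : K) :
    f ∈ YY A hD h2 ↔ f ≠ 0 ∧ ¬ A.XX f := Iff.rfl

theorem cancel_left {k K : Type} [Field k] [Ring K] (A : Api k K) (hD : S_DOM) {a b c : K} (ha : a ≠ 0)
    (h : a * b = a * c) : b = c := by
  have h1 : a * (b - c) = 0 := by rw [mul_sub, h, sub_self]
  rcases (hD k K A).1 _ _ h1 with h2 | h2
  · exact absurd h2 ha
  · exact sub_eq_zero.1 h2

theorem cancel_right {k K : Type} [Field k] [Ring K] (A : Api k K) (hD : S_DOM) {a b c : K} (ha : a ≠ 0)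
    (h : b * a = c * a) : b = c := by
  have h1 : (b - c) * a = 0 := by rw [sub_mul, h, sub_self]
  rcases (hD k K A).1 _ _ h1 with h2 | h2
  · exact sub_eq_zero.1 h2
  · exact absurd h2 ha

/-- The submonoid embeds in a group. -/
theorem YY_embeds {k K : Type} [Field k] [Ring K] (A : Api k K) (hD : S_DOM) (h2 : S_FTWO)
    (h3 : S_FTHREE) : ∃ (G : Type) (_ : Group G) (f : YY A hD h2 →* G), Function.Injective f := by
  obtain ⟨ord, ho1, ho2, ho3⟩ := (hD k K A).2
  let _ : CancelMonoid (YY A hD h2) :=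
    { (inferInstance : Monoid (YY A hD h2)) with
      mul_left_cancel := by
        intro a b c h
        exact Subtype.ext (cancel_left A hD a.2.1 (congrArg Subtype.val h))
      mul_right_cancel := by
        intro a b c h
        exact Subtype.ext (cancel_right A hD a.2.1 (congrArg Subtype.val h)) }
  refine rig (YY A hD h2) (fun u => ord u.1) ?_ ?_ ?_
  · intro a b
    exact ho2 _ _ a.2.1 b.2.1
  · intro a ha
    have h5 : A.ep a.1 ≠ 0 := (ho3 _ a.2.1).1 ha
    obtain ⟨u, hu⟩ := A.unit _ h5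
    have h6 : a.1 * (↑u⁻¹ : K) = 1 := by rw [← hu]; exact u.mul_inv
    have h7 : (↑u⁻¹ : K) * a.1 = 1 := by rw [← hu]; exact u.inv_mul
    have h8 : A.ep (↑u⁻¹ : K) ≠ 0 := by
      intro h
      have := congrArg A.ep h6
      rw [map_mul, h, mul_zero, map_one] at this
      exact zero_ne_one this
    have h9 : (↑u⁻¹ : K) ∈ YY A hD h2 :=
      ⟨fun h => h8 (by rw [h, map_zero]), fun h => h8 ((h2 k K A).1 _ h).1⟩
    exact ⟨⟨a, ⟨_, h9⟩, Subtype.ext h6, Subtype.ext h7⟩, rfl⟩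
  · intro a b c d h
    have h4 : a.1 * b.1 = c.1 * d.1 := congrArg Subtype.val h
    obtain ⟨e, he⟩ := h3 k K A a.1 c.1 b.1 d.1 a.2.1 c.2.1 b.2.1 d.2.1 b.2.2 d.2.2 h4
    rcases he with he | he
    · left
      have h5 : e ≠ 0 := by
        rintro rfl
        rw [mul_zero] at he
        exact a.2.1 he
      have h6 : e * b.1 = d.1 := by
        rw [he, mul_assoc] at h4
        exact cancel_left A hD c.2.1 h4
      have h7 : e ∈ YY A hD h2 := ⟨h5, fun hx => d.2.2 (by
        rw [← h6]; exact (h2 k K A).2.2.1 e b.1 hx b.2.1)⟩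
      exact ⟨⟨e, h7⟩, Subtype.ext he⟩
    · right
      have h5 : e ≠ 0 := by
        rintro rfl
        rw [mul_zero] at he
        exact c.2.1 he
      have h6 : e * d.1 = b.1 := by
        rw [he, mul_assoc] at h4
        exact (cancel_left A hD a.2.1 h4).symm
      have h7 : e ∈ YY A hD h2 := ⟨h5, fun hx => b.2.2 (by
        rw [← h6]; exact (h2 k K A).2.2.1 e d.1 hx d.2.1)⟩
      exact ⟨⟨e, h7⟩, Subtype.ext he⟩

/-- For every field `k` there is a `k`-subalgebra without zero divisors with a group-embeddable semigroup which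
is not invertible. -/
theorem exists_ring (k : Type) [Field k] : ∃ (R : Type) (_ : Ring R) (_ : Algebra k R), Nontrivial R ∧
    NoZeroDivisors R ∧
    (∃ (G : Type) (_ : Group G) (f : {r : R // r ≠ 0} → G), Function.Injective f ∧
      ∀ a b c : {r : R // r ≠ 0}, c.1 = a.1 * b.1 → f c = f a * f b) ∧
    ∀ (S : Type v) [Ring S] (φ : R →ₙ+* S), Function.Injective φ → ∃ r : R, r ≠ 0 ∧ ¬ IsUnit (φ r) := by
  obtain ⟨K, iK, ⟨A⟩⟩ := base_ok k
  have hO : S_ORD := ord_ok
  have hD : S_DOM := dom_ok hO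
  have h2 : S_FTWO := ftwo_ok hD
  have h3 : S_FTHREE := Pool.Agent.K1H38.NI.fthree_ok hD Pool.Agent.K1H38.NI.ll_ok
  obtain ⟨R, hR1, hR2, hR3⟩ := sub_ok.{v} k K A
  have hone : (1 : K) ≠ 0 := by
    intro h
    have := congrArg A.ep h
    rw [map_one, map_zero] at this
    exact one_ne_zero this
  refine ⟨R, inferInstance, ?_, ?_, ?_, ?_, hR3⟩
  · exact RingHom.toAlgebra' (A.C.codRestrict R hR2) (fun c x => Subtype.ext (A.C_comm c x.1))
  · exact ⟨⟨0, 1, fun h => hone (congrArg Subtype.val h).symm⟩⟩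
  · refine ⟨?_⟩
    intro a b h
    rcases (hD k K A).1 a.1 b.1 (congrArg Subtype.val h) with h | h
    · exact Or.inl (Subtype.ext h)
    · exact Or.inr (Subtype.ext h)
  · obtain ⟨G, iG, f, hf⟩ := YY_embeds A hD h2 h3
    have hmem : ∀ r : {r : R // r ≠ 0}, r.1.1 ∈ YY A hD h2 := fun r =>
      ⟨fun h => r.2 (Subtype.ext h), fone_ok hO k K A _ ((hR1 _).1 r.1.2)⟩
    refine ⟨G, iG, fun r => f ⟨r.1.1, hmem r⟩, ?_, ?_⟩
    · intro a b h
      have h5 := congrArg Subtype.val (hf h)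
      exact Subtype.ext (Subtype.ext h5)
    · intro a b c h
      have h7 : c.1.1 = a.1.1 * b.1.1 := congrArg Subtype.val h
      have h6 : (⟨c.1.1, hmem c⟩ : YY A hD h2) = ⟨a.1.1, hmem a⟩ * ⟨b.1.1, hmem b⟩ :=
        Subtype.ext h7
      show f _ = f _ * f _
      rw [h6, map_mul]

end K1H43.NI
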